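import Pool.Agent.P.MP_2cea5e_gt.Abs.Pull
import Pool.Agent.P.MP_2cea5e_gt.IV.St

/-!
Assembly: the flow on an abstract surface from the flow in fan charts.
-/

open scoped ContDiff ComplexOrder Manifold Matrix Topology
open Set Metric Filter

noncomputable section

namespace Pool.Agent.P.MP_2cea5e_gt.Abs

variable {M : Type} [TopologicalSpace M] [ChartedSpace C2 M] [MulAction C2ˣ M] {x₀ q q' : M}

theorem TC.cts (C : TC M x₀ q) : Continuous C.Φ :=
  continuous_iff_continuousAt.2 fun z => (C.dΦ z).continuousAt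

theorem TC.right (C : TC M x₀ q) {x : M} (hx : x ∈ range C.Φ) : C.Φ (C.Ψ x) = x := by
  obtain ⟨z, rfl⟩ := hx
  rw [C.left]

theorem TC.dΨ' (C : TC M x₀ q) {x : M} (hx : x ∈ range C.Φ) : MDifferentiableAt IC IC C.Ψ x := by
  obtain ⟨z, rfl⟩ := hx
  exact C.dΨ z

theorem TC.orb (C : TC M x₀ q) {w : C2} (hw : ∀ k, w k ≠ 0) : C.Φ (mon C.m w) = un w • x₀ := by
  have := C.eqv (un w) 1
  rwa [un_val hw, mul_one, C.one] at this

theorem TC.surj (C : TC M x₀ q) (z v : C2) : ∃ u, DD C.Φ z u = v := by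
  refine ⟨DD C.Ψ (C.Φ z) v, ?_⟩
  have h1 := DD_comp (F := C.Φ) (G := C.Ψ) (z := C.Φ z) (C.dΦ _) (C.dΨ z) v
  rw [C.left, DD_congr (F := fun w => C.Φ (C.Ψ w)) (G := id) (eventually_of_mem (C.opn.mem_nhds ⟨z, rfl⟩) fun x hx =>
    C.right hx), DD_id] at h1
  exact h1.symm

theorem TC.diff (C : TC M x₀ q) {F : C2 → M} {z : C2} (hF : MDifferentiableAt IC IC F z)
    (hz : F z ∈ range C.Φ) : DifferentiableAt ℂ (fun y => C.Ψ (F y)) z :=
  mdifferentiableAt_iff_differentiableAt.1 ((C.dΨ' hz).comp z hF)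

theorem trans (hT : StTens) (C : TC M x₀ q) (C' : TC M x₀ q') {g g' : Fld}
    (hg : ∀ j k, Continuous fun z => g z j k) (hg' : ∀ j k, Continuous fun z => g' z j k)
    (glue : ∀ w : C2, (∀ k, w k ≠ 0) → pb C.m g w = pb C'.m g' w) {z : C2}
    (hz : C'.Φ z ∈ range C.Φ) : pbF (fun y => C.Ψ (C'.Φ y)) g z = g' z := by
  have hW : IsOpen (C'.Φ ⁻¹' range C.Φ) := C.opn.preimage C'.cts
  have hF : DifferentiableOn ℂ (fun y => C.Ψ (C'.Φ y)) (C'.Φ ⁻¹' range C.Φ) := fun y hy =>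
    (C.diff (C'.dΦ y) hy).differentiableWithinAt
  have key : ∀ y : C2, (∀ k, y k ≠ 0) → pbF (fun y => C.Ψ (C'.Φ y)) g y = g' y := fun y hy => by
    have hw := mon_ne C'.m⁻¹ hy
    have e1 : (fun y => C.Ψ (C'.Φ y)) =ᶠ[𝓝 y] fun y => mon C.m (mon C'.m⁻¹ y) :=
      (ev_ne hy).mono fun u hu => by
        have := C'.orb (mon_ne C'.m⁻¹ hu)
        rw [mon_inv C'.det hu, ← C.orb (mon_ne C'.m⁻¹ hu)] at this
        simp only [this, C.left]
    have e2 : (fun y => mon C'.m (mon C'.m⁻¹ y)) =ᶠ[𝓝 y] id :=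
      (ev_ne hy).mono fun u hu => mon_inv C'.det hu
    rw [pbF_congr e1, ← pbF_id g' y, ← pbF_congr e2, pbF_comp (diff_mon _ hw) (diff_mon _ hy),
      pbF_comp (diff_mon _ hw) (diff_mon _ hy)]
    simp only [pbF.eq_1 (mon C'.m⁻¹), ← pb_eq _ _ hw, glue _ hw]
  ext j k
  have c1 : ContinuousAt (fun y => pbF (fun y => C.Ψ (C'.Φ y)) g y j k) z := by
    simp only [pbF_apply]
    have t := fun a j => (((hT _ _ hW hF).1 a j).contDiffAt (hW.mem_nhds hz)).continuousAt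
    exact tendsto_finsetSum _ fun a _ => tendsto_finsetSum _ fun b _ => ((t a j).mul
      ((hg a b).continuousAt.comp (sm_F hW hF hz).continuousAt)).mul (t b k).star
  have d : Dense {y : C2 | ∀ k, y k ≠ 0} := by
    have := dense_pi (s := fun _ : Fin 2 => ({0}ᶜ : Set ℂ)) univ fun _ _ => dense_compl_singleton 0
    exact this.mono fun y hy k => mem_univ_pi.1 hy k
  exact tendsto_nhds_unique_of_frequently_eq c1 (hg' j k).continuousAt
    ((mem_closure_iff_frequently.1 (d z)).mono fun y hy => by rw [key y hy])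

variable [IsManifold IC 1 M] [ContMDiffSMul IC IC 1 C2ˣ M]

omit [IsManifold IC 1 M] in
theorem TC.pull_act (C : TC M x₀ q) (h : Met M) (θ : C2ˣ) (z : C2) (j k : Fin 2) :
    hh h (θ • C.Φ z) (DD (fun y : M => θ • y) (C.Φ z) (DD C.Φ z (Pi.single j 1)))
      (DD (fun y : M => θ • y) (C.Φ z) (DD C.Φ z (Pi.single k 1))) =
      mon C.m θ j * pull h C.Φ (mon C.m θ * z) j k * star (mon C.m θ k) := by
  rw [← DD_comp (md_act θ _) (C.dΦ z), ← DD_comp (md_act θ _) (C.dΦ z),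
    ← pull_apply h (fun w => θ • C.Φ w), ← pbF_mul,
    ← pull_comp h (F := fun w => mon C.m θ * w) (C.dΦ _) (differentiableAt_id.const_mul _)]
  simp only [C.eqv]

omit [ContMDiffSMul IC IC 1 C2ˣ M] in
theorem TC.init (hT : StTens) (C : TC M x₀ q) {h : Met M} (hK : IsInvKaehler h) (z : C2) :
    ((∀ j k, ContDiffAt ℝ ∞ (fun w => pull h C.Φ w j k) z) ∧ (pull h C.Φ z).PosDef ∧
      ∀ j k l, dz l (fun w => pull h C.Φ w j k) z = dz j (fun w => pull h C.Φ w l k) z) := by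
  set e := chartAt C2 (C.Φ z)
  have he : e ∈ atlas C2 M := chart_mem_atlas _ _
  have hz : C.Φ z ∈ e.source := mem_chart_source _ _
  have hW : IsOpen (C.Φ ⁻¹' e.source) := e.open_source.preimage C.cts
  have hF : DifferentiableOn ℂ (fun y => e (C.Φ y)) (C.Φ ⁻¹' e.source) := fun y hy =>
    (md_chart he hy (C.dΦ y)).differentiableWithinAt
  have ht := e.map_source hz
  refine transfer hT hW hF (g := pull h e.symm) (fun y hy => chg h hW
    (fun y hy => (e.left_inv hy).symm) hF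
    (fun y hy => mdifferentiableAt_atlas_symm he (e.map_source hy)) hy) hz
    (JJ_det (F := fun y => C.Ψ (e.symm y)) (C.diff (mdifferentiableAt_atlas_symm he ht)
      ⟨z, (e.left_inv hz).symm⟩) (hF.differentiableAt (hW.mem_nhds hz)) ?_)
    (fun j k => (hK.smooth e he j k).contDiffAt (e.open_target.mem_nhds ht)) (hK.pos e he _ ht)
    (hK.closed e he _ ht)
  filter_upwards [hW.mem_nhds hz] with y hy
  rw [e.left_inv hy, C.left, id]

theorem abs_of (hT : StTens) (hF : StFan) (h0 : IV.StFinal) : StAbs := by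
  intro M _ _ _ _ _ _ _ _ h₀ κ ⟨x₀, hd⟩ ⟨q, hq⟩ hK hκ
  have hC : ∀ σ : Fix M, Nonempty (TC M x₀ σ.1) := fun σ =>
    (lin_ok M σ.1 fun θ _ => σ.2 θ).elim fun L => ext_ok M x₀ σ.1 hd L
  let C := fun σ => (hC σ).some
  obtain ⟨hfin, hfan, hcov⟩ := hF M x₀ hd ⟨⟨q, fix_of_T hq⟩⟩ C
  have hg₀ : IsToricMetric (fun σ => (C σ).m) fun σ => pull h₀ (C σ).Φ := by
    refine ⟨fun σ j k => contDiff_iff_contDiffAt.2 fun z => ((C σ).init hT hK z).1 j k,
      fun σ z => ((C σ).init hT hK z).2.1, fun σ z => ((C σ).init hT hK z).2.2,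
      fun σ θ z hθ j k => ?_, fun σ ρ w hw => ?_⟩
    · have hn : ∀ j, θ j ≠ 0 := fun j => norm_ne_zero_iff.1 (by rw [hθ j]; exact one_ne_zero)
      obtain ⟨γ, h1, h2⟩ := mon_surj (C σ).det (un θ)
      rw [un_val hn] at h1 h2
      rw [← h1, ← (C σ).pull_act]
      exact hK.inv γ (h2 hθ) _ _ _
    · rw [pb_eq _ _ hw, pb_eq _ _ hw, ← pull_comp h₀ ((C σ).dΦ _) (diff_mon _ hw),
        ← pull_comp h₀ ((C ρ).dΦ _) (diff_mon _ hw)]
      exact pull_congr h₀ ((ev_ne hw).mono fun u hu => by simp only [TC.orb _ hu])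
  obtain ⟨g, g0, g1, g2, g3⟩ := h0 (Fix M) _ _ κ hfan hg₀ hκ
  choose s z hs using hcov
  let h : ℝ → Met M := fun t x => frm (g t (s x) ((C (s x)).Ψ x)) (DD (C (s x)).Ψ x)
  have key : ∀ t, 0 ≤ t → ∀ ρ, pull (h t) (C ρ).Φ = g t ρ := fun t ht ρ => by
    funext y
    have hy : (C ρ).Φ y ∈ range (C (s ((C ρ).Φ y))).Φ := ⟨_, hs _⟩
    rw [← trans hT (C (s ((C ρ).Φ y))) (C ρ) (g := g t _) (g' := g t ρ) (fun j k => ((g1 t ht).smooth _ j k).continuous)
      (fun j k => ((g1 t ht).smooth _ j k).continuous) ((g1 t ht).glue _ _) hy]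
    ext j k
    rw [pbF_apply, pull_apply]
    simp only [JJ, Matrix.of_apply, ← DD_eq, DD_comp (TC.dΨ' _ hy) ((C ρ).dΦ y)]
    rfl
  have loc : ∀ e ∈ atlas C2 M, ∀ y ∈ e.target, ∃ (σ : Fix M) (F : C2 → C2) (W : Set C2),
      IsOpen W ∧ y ∈ W ∧ DifferentiableOn ℂ F W ∧ (∀ u ∈ W, (JJ F u).det ≠ 0) ∧
      ∀ t, 0 ≤ t → ∀ u ∈ W, pull (h t) e.symm u = pbF F (g t σ) u := fun e he y hy => by
    set σ := s (e.symm y)
    have hW := e.isOpen_inter_preimage_symm (C σ).opn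
    have hF : DifferentiableOn ℂ (fun u => (C σ).Ψ (e.symm u))
        (e.target ∩ e.symm ⁻¹' range (C σ).Φ) := fun u hu =>
      ((C σ).diff (mdifferentiableAt_atlas_symm he hu.1) hu.2).differentiableWithinAt
    refine ⟨σ, _, _, hW, ⟨hy, _, hs _⟩, hF, fun u hu => JJ_det (F := fun v => e ((C σ).Φ v))
      (md_chart he (by rw [(C σ).right hu.2]; exact e.map_target hu.1) ((C σ).dΦ _))
      (hF.differentiableAt (hW.mem_nhds hu)) ?_, fun t ht u hu => ?_⟩
    · filter_upwards [hW.mem_nhds hu] with v hv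
      rw [(C σ).right hv.2, e.right_inv hv.1, id]
    · rw [← key t ht]
      exact chg _ hW (fun v hv => ((C σ).right hv.2).symm) hF (fun v _ => (C σ).dΦ _) hu
  refine ⟨h, ?_, fun t ht => ?_, fun e he => ⟨fun j k p hp => ?_, fun t ht y hy j k => ?_⟩⟩
  · funext x
    refine LinearMap.ext fun v => LinearMap.ext fun w => ?_
    obtain ⟨v', hv⟩ := (C (s x)).surj (z x) v
    obtain ⟨w', hw⟩ := (C (s x)).surj (z x) w
    have h1 := hh_exp (h 0) (C (s x)).Φ (z x) v' w'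
    rw [key 0 le_rfl, g0, ← hh_exp, hv, hw, hs] at h1
    exact h1
  · have tr : ∀ e ∈ atlas C2 M, ∀ y ∈ e.target,
        (∀ j k, ContDiffAt ℝ ∞ (fun w => pull (h t) e.symm w j k) y) ∧
        (pull (h t) e.symm y).PosDef ∧ ∀ j k l, dz l (fun w => pull (h t) e.symm w j k) y =
          dz j (fun w => pull (h t) e.symm w l k) y := fun e he y hy => by
      obtain ⟨σ, F, W, hW, hy, hF, hd, hp⟩ := loc e he y hy
      exact transfer hT hW hF (hp t ht) hy (hd y hy)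
        (fun j k => ((g1 t ht).smooth σ j k).contDiffAt) ((g1 t ht).pos σ _)
        ((g1 t ht).closed σ _)
    refine ⟨fun e he j k y hy => ((tr e he y hy).1 j k).contDiffWithinAt,
      fun e he y hy => (tr e he y hy).2.1, fun e he y hy => (tr e he y hy).2.2,
      fun θ hθ x v w => ?_⟩
    obtain ⟨v', hv⟩ := (C (s x)).surj (z x) v
    obtain ⟨w', hw⟩ := (C (s x)).surj (z x) w
    have h1 := hh_exp (h t) (C (s x)).Φ (z x) v' w'
    have h2 := hh_exp (h t) (fun y => θ • (C (s x)).Φ y) (z x) v' w'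
    simp only [pull_apply (h t) (fun y => θ • (C (s x)).Φ y),
      DD_comp (md_act θ _) ((C (s x)).dΦ _), TC.pull_act, key t ht,
      (g1 t ht).inv _ _ _ (norm_mon _ hθ)] at h2
    rw [key t ht, ← h2, hv, hw, hs] at h1
    exact h1.symm
  · obtain ⟨σ, F, W, hW, hy, hF, -, hp'⟩ := loc e he p.2 hp.2
    have t1 := (hT F W hW hF).1
    have c : ContDiffWithinAt ℝ ∞ (fun r : ℝ × C2 => (r.1, F r.2)) (Ici 0 ×ˢ e.target) p :=
      (contDiffAt_fst.prodMk ((sm_F hW hF hy).comp p contDiffAt_snd)).contDiffWithinAt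
    refine (sm_sum (J := fun r : ℝ × C2 => JJ F r.2) (G := fun r => g r.1 σ (F r.2))
      (fun a j => (((t1 a j).contDiffAt (hW.mem_nhds hy)).comp p contDiffAt_snd).contDiffWithinAt)
      (fun a b => ContDiffWithinAt.comp (g := fun r : ℝ × C2 => g r.1 σ r.2 a b) p
        (g2 σ a b (p.1, F p.2) ⟨hp.1, mem_univ _⟩) c
        fun r hr => mk_mem_prod hr.1 (mem_univ _)) j k).congr_of_eventuallyEq_of_mem ?_ hp
    filter_upwards [self_mem_nhdsWithin, mem_nhdsWithin_of_mem_nhds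
      (continuous_snd.continuousAt.eventually_mem (hW.mem_nhds hy))] with r h1 h2
    rw [hp' r.1 h1.1 r.2 h2, pbF_apply]
  · obtain ⟨σ, F, W, hW, hy, hF, hd, hp⟩ := loc e he y hy
    obtain ⟨-, t2, t3⟩ := hT F W hW hF
    have t4 := fun u hu => (t3 (g t σ) u hu fun j k => ((g1 t ht).smooth σ j k).contDiffAt).2
      (hd u hu) ((g1 t ht).pos σ _)
    have e1 : scalG (pull (h t) e.symm) =ᶠ[𝓝 y] fun u => scalG (g t σ) (F u) :=
      eventually_of_mem (hW.mem_nhds hy) fun u hu =>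
        (scalG_congr (eventually_of_mem (hW.mem_nhds hu) (hp t ht))).trans (t4 u hu).2.1
    rw [hess_congr e1, t2 _ y hy (t4 y hy).2.2, pbF_apply]
    have := HasDerivWithinAt.fun_sum (u := Finset.univ) fun a _ =>
      HasDerivWithinAt.fun_sum (u := Finset.univ) fun b _ =>
        ((g3 t ht σ (F y) a b).const_mul (JJ F y a j)).mul_const (star (JJ F y b k))
    refine (this.congr (fun r hr => ?_) ?_).congr_deriv ?_
    · rw [hp r hr y hy, pbF_apply]
    · rw [hp t ht y hy, pbF_apply]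
    · simp only [Fin.sum_univ_two]; ring

end Pool.Agent.P.MP_2cea5e_gt.Abs
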