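import Pool.Agent.P.MP_2cea5e_gt.Abs.St

/-!
Basic facts: the exponential of the torus, the identity theorem for curves, effectiveness.
-/

open scoped ContDiff ComplexOrder Manifold Matrix Topology
open Set Metric Filter

noncomputable section

namespace Pool.Agent.P.MP_2cea5e_gt.Abs

/-- The exponential map of the torus. -/
def ex (w : C2) : C2ˣ :=
  ⟨fun j => Complex.exp (w j), fun j => Complex.exp (-w j),
    by funext j; simp [← Complex.exp_add], by funext j; simp [← Complex.exp_add]⟩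

@[simp] theorem ex_val (w : C2) (j : Fin 2) : (ex w : C2) j = Complex.exp (w j) := rfl

theorem ex_add (v w : C2) : ex (v + w) = ex v * ex w := by
  ext j; simp [Complex.exp_add]

theorem ex_zero : ex 0 = 1 := by
  ext j; simp

theorem ex_neg (w : C2) : ex (-w) = (ex w)⁻¹ := by
  rw [eq_inv_iff_mul_eq_one, ← ex_add, neg_add_cancel, ex_zero]

theorem unit_ne (g : C2ˣ) (j : Fin 2) : (g : C2) j ≠ 0 := by
  have := congrFun g.mul_inv j
  simp only [Pi.mul_apply, Pi.one_apply] at this
  exact left_ne_zero_of_mul_eq_one this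

theorem ex_log (g : C2ˣ) : ex (fun j => Complex.log ((g : C2) j)) = g := by
  ext j; simp [Complex.exp_log (unit_ne g j)]

/-- The unit with nonzero coordinates `w`. -/
def un (w : C2) : C2ˣ := ex fun j => Complex.log (w j)

theorem un_val {w : C2} (hw : ∀ j, w j ≠ 0) : (un w : C2) = w := by
  funext j; simp [un, Complex.exp_log (hw j)]

theorem un_unit (g : C2ˣ) : un g = g := ex_log g

theorem md_units {E : Type} [NormedAddCommGroup E] [NormedSpace ℂ E] {f : E → C2ˣ} {x : E}
    (h : DifferentiableAt ℂ (fun y => (f y : C2)) x) : MDifferentiableAt 𝓘(ℂ, E) IC f x := by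
  have hc : ContinuousAt f x :=
    Units.isOpenEmbedding_val.isInducing.continuousAt_iff.2 h.continuousAt
  rw [mdifferentiableAt_iff]
  refine ⟨hc, ?_⟩
  simp only [mfld_simps]
  exact h.differentiableWithinAt

theorem diff_ex : Differentiable ℂ fun w : C2 => (ex w : C2) :=
  differentiable_pi.2 fun j => (differentiable_apply j).cexp

theorem mon_ex (m : Matrix (Fin 2) (Fin 2) ℤ) (w : C2) (j : Fin 2) :
    mon m (ex w) j = Complex.exp (∑ k, (m j k : ℂ) * w k) := by
  simp [mon, Fin.prod_univ_two, Fin.sum_univ_two, Complex.exp_add, Complex.exp_int_mul]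

variable {M : Type} [TopologicalSpace M] [ChartedSpace C2 M] [IsManifold IC 1 M]

theorem md_chart {E : Type} [NormedAddCommGroup E] [NormedSpace ℂ E] {f : E → M} {x : E}
    {e : OpenPartialHomeomorph M C2} (he : e ∈ atlas C2 M) (hx : f x ∈ e.source)
    (h : MDifferentiableAt 𝓘(ℂ, E) IC f x) : DifferentiableAt ℂ (fun y => e (f y)) x :=
  mdifferentiableAt_iff_differentiableAt.1 ((mdifferentiableAt_atlas he hx).comp x h)

theorem md_symm {E : Type} [NormedAddCommGroup E] [NormedSpace ℂ E] {f : E → C2} {x : E}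
    {e : OpenPartialHomeomorph M C2} (he : e ∈ atlas C2 M) (hx : f x ∈ e.target)
    (h : DifferentiableAt ℂ f x) : MDifferentiableAt 𝓘(ℂ, E) IC (fun y => e.symm (f y)) x :=
  (mdifferentiableAt_atlas_symm he hx).comp x (mdifferentiableAt_iff_differentiableAt.2 h)

theorem ident_loc [T2Space M] {f g : ℂ → M} {z : ℂ}
    (hf : ∀ᶠ s in 𝓝 z, MDifferentiableAt 𝓘(ℂ, ℂ) IC f s)
    (hg : ∀ᶠ s in 𝓝 z, MDifferentiableAt 𝓘(ℂ, ℂ) IC g s) (h : ∃ᶠ s in 𝓝[≠] z, f s = g s) :
    f =ᶠ[𝓝 z] g := by
  have cf := hf.self_of_nhds.continuousAt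
  have cg := hg.self_of_nhds.continuousAt
  have h0 : f z = g z :=
    tendsto_nhds_unique_of_frequently_eq (cf.tendsto.mono_left nhdsWithin_le_nhds)
      (cg.tendsto.mono_left nhdsWithin_le_nhds) h
  set e := chartAt C2 (f z)
  have he : e ∈ atlas C2 M := chart_mem_atlas _ _
  have hs : e.source ∈ 𝓝 (f z) := chart_source_mem_nhds _ _
  have sf : ∀ᶠ s in 𝓝 z, f s ∈ e.source := cf hs
  have sg : ∀ᶠ s in 𝓝 z, g s ∈ e.source := cg (h0 ▸ hs)
  have af : AnalyticAt ℂ (fun s => e (f s)) z :=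
    Complex.analyticAt_iff_eventually_differentiableAt.2
      ((hf.and sf).mono fun s hs => md_chart he hs.2 hs.1)
  have ag : AnalyticAt ℂ (fun s => e (g s)) z :=
    Complex.analyticAt_iff_eventually_differentiableAt.2
      ((hg.and sg).mono fun s hs => md_chart he hs.2 hs.1)
  have := (af.frequently_eq_iff_eventually_eq ag).1 (h.mono fun s hs => by rw [hs])
  filter_upwards [this, sf, sg] with s h1 h2 h3
  exact e.injOn h2 h3 h1

/-- The identity theorem for holomorphic curves in `M`. -/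
theorem ident [T2Space M] {f g : ℂ → M} {U : Set ℂ} (hU : IsOpen U) (hc : IsPreconnected U)
    (hf : ∀ s ∈ U, MDifferentiableAt 𝓘(ℂ, ℂ) IC f s)
    (hg : ∀ s ∈ U, MDifferentiableAt 𝓘(ℂ, ℂ) IC g s) {z : ℂ} (hz : z ∈ U)
    (h : ∃ᶠ s in 𝓝[≠] z, f s = g s) : EqOn f g U := by
  have loc : ∀ x ∈ U, (∃ᶠ s in 𝓝[≠] x, f s = g s) → f =ᶠ[𝓝 x] g := fun x hx h =>
    ident_loc (eventually_of_mem (hU.mem_nhds hx) hf) (eventually_of_mem (hU.mem_nhds hx) hg) h
  have : U ⊆ {x | f =ᶠ[𝓝 x] g} := by
    refine hc.subset_of_closure_inter_subset isOpen_setOfPred_eventually_nhds ⟨z, hz, loc z hz h⟩ ?_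
    rintro x ⟨hx, hxU⟩
    by_cases hx' : f =ᶠ[𝓝 x] g
    · exact hx'
    · refine loc x hxU ?_
      have h1 := mem_closure_iff_frequently.1 hx
      rw [frequently_nhdsWithin_iff]
      refine h1.mono fun s hs => ⟨hs.self_of_nhds, ?_⟩
      rintro rfl
      exact hx' hs
  exact fun x hx => (this hx).self_of_nhds

theorem freq_im (P : ℂ → Prop) (h : ∀ t : ℝ, P (t * Complex.I)) : ∃ᶠ s in 𝓝[≠] (0 : ℂ), P s := by
  have h1 : Tendsto (fun t : ℝ => (t : ℂ) * Complex.I) (𝓝[≠] 0) (𝓝[≠] 0) := by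
    refine tendsto_nhdsWithin_iff.2 ⟨?_, eventually_nhdsWithin_of_forall fun t ht => ?_⟩
    · have : Continuous fun t : ℝ => (t : ℂ) * Complex.I := by fun_prop
      simpa using (this.tendsto 0).mono_left nhdsWithin_le_nhds
    · simpa using ht
  exact h1.frequently (Eventually.of_forall h).frequently

variable [MulAction C2ˣ M] [ContMDiffSMul IC IC 1 C2ˣ M]

omit [IsManifold IC 1 M] in
theorem md_smul {E : Type} [NormedAddCommGroup E] [NormedSpace ℂ E] {f : E → C2ˣ} {p : E → M}
    {x : E} (h : DifferentiableAt ℂ (fun y => (f y : C2)) x)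
    (hp : MDifferentiableAt 𝓘(ℂ, E) IC p x) :
    MDifferentiableAt 𝓘(ℂ, E) IC (fun y => f y • p y) x :=
  ((contMDiff_smul (I := IC) (I' := IC) (n := 1) (G := C2ˣ) (M := M)).mdifferentiable
    one_ne_zero (f x, p x)).comp x ((md_units h).prodMk hp)

omit [IsManifold IC 1 M] in
theorem md_act (g : C2ˣ) (x : M) : MDifferentiableAt IC IC (fun y : M => g • y) x :=
  ((contMDiff_smul (I := IC) (I' := IC) (n := 1) (G := C2ˣ) (M := M)).mdifferentiable
    one_ne_zero (g, x)).comp x (mdifferentiableAt_const.prodMk mdifferentiableAt_id)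

omit [IsManifold IC 1 M] in
theorem cont_smul : Continuous fun p : C2ˣ × M => p.1 • p.2 :=
  (contMDiff_smul (I := IC) (I' := IC) (n := 1) (G := C2ˣ) (M := M)).continuous

omit [IsManifold IC 1 M] in
theorem cont_act (g : C2ˣ) : Continuous fun y : M => g • y :=
  cont_smul.comp (continuous_const.prodMk continuous_id)

omit [IsManifold IC 1 M] in
/-- An element fixing a neighbourhood of a point is trivial. -/
theorem eff [T2Space M] [FaithfulSMul C2ˣ M] {x₀ : M} (hd : Dense (MulAction.orbit C2ˣ x₀))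
    {g : C2ˣ} {p : M} (h : ∀ᶠ y in 𝓝 p, g • y = y) : g = 1 := by
  obtain ⟨_, hy, u, rfl⟩ := mem_closure_iff_nhds.1 (hd p) _ h
  have h0 : g • x₀ = x₀ := by
    have : u • g • x₀ = u • x₀ := by rw [smul_comm]; exact hy
    exact smul_left_cancel u this
  have : (fun y : M => g • y) = id := by
    refine Continuous.ext_on hd (cont_act g) continuous_id ?_
    rintro _ ⟨v, rfl⟩
    simp only [id]
    rw [smul_comm, h0]
  exact eq_of_smul_eq_smul (α := M) fun y => by rw [one_smul]; exact congrFun this y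

/-- A point fixed by the compact torus is fixed by the torus. -/
theorem fix_of_T [T2Space M] {q : M} (h : ∀ θ : C2ˣ, (∀ j, ‖(θ : C2) j‖ = 1) → θ • q = q)
    (g : C2ˣ) : g • q = q := by
  have hre : ∀ ξ : Fin 2 → ℝ, ∀ s : ℂ, ex (fun j => s * ξ j) • q = q := fun ξ s => by
    refine ident (f := fun s : ℂ => ex (fun j => s * ξ j) • q) (g := fun _ => q) isOpen_univ
      isPreconnected_univ (fun s _ => md_smul ?_ mdifferentiableAt_const)
      (fun _ _ => mdifferentiableAt_const) (mem_univ 0) (freq_im _ fun t => h _ fun j => ?_)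
      (mem_univ s)
    · exact (diff_ex _).comp s (differentiableAt_pi.2 fun j => by fun_prop)
    · simp [Complex.norm_exp]
  have e : (fun j => Complex.log ((g : C2) j)) =
      (fun j => (1 : ℂ) * ((Complex.log ((g : C2) j)).re : ℝ)) +
        fun j => Complex.I * ((Complex.log ((g : C2) j)).im : ℝ) := by
    funext j
    simp only [Pi.add_apply, one_mul]
    rw [mul_comm, Complex.re_add_im]
  rw [← ex_log g, e, ex_add, mul_smul, hre, hre]

end Pool.Agent.P.MP_2cea5e_gt.Abs
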