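import Pool.Agent.P.MP_2cea5e_gt.Defs3

/-!
Torus invariant Kaehler metrics on a complex surface with an action of the torus.
-/

open scoped ContDiff ComplexOrder Manifold

noncomputable section

namespace Pool.Agent.P.MP_2cea5e_gt

/-- A field of sesquilinear forms on the holomorphic tangent spaces of a complex surface. -/
abbrev Met (M : Type) [TopologicalSpace M] [ChartedSpace C2 M] :=
  ∀ x : M, TangentSpace 𝓘(ℂ, C2) x →ₗ[ℂ] TangentSpace 𝓘(ℂ, C2) x →ₗ⋆[ℂ] ℂ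

variable {M : Type} [TopologicalSpace M] [ChartedSpace C2 M]

/-- The components `h(∂F/∂z_j, ∂F/∂z_k)` of the field `h` in the parametrisation `F`. -/
def pull (h : Met M) (F : C2 → M) : Fld := fun z => Matrix.of fun j k =>
  h (F z) (mfderiv 𝓘(ℂ, C2) 𝓘(ℂ, C2) F z (Pi.single j 1))
    (mfderiv 𝓘(ℂ, C2) 𝓘(ℂ, C2) F z (Pi.single k 1))

/-- A smooth Kaehler metric invariant under the compact torus. -/
structure IsInvKaehler [MulAction C2ˣ M] (h : Met M) : Prop where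
  smooth : ∀ e ∈ atlas C2 M, ∀ j k, ContDiffOn ℝ ∞ (fun z => pull h e.symm z j k) e.target
  pos : ∀ e ∈ atlas C2 M, ∀ z ∈ e.target, (pull h e.symm z).PosDef
  closed : ∀ e ∈ atlas C2 M, ∀ z ∈ e.target, ∀ j k l,
    dz l (fun w => pull h e.symm w j k) z = dz j (fun w => pull h e.symm w l k) z
  inv : ∀ θ : C2ˣ, (∀ j, ‖(θ : C2) j‖ = 1) → ∀ (x : M) (v w : TangentSpace 𝓘(ℂ, C2) x),
    h (θ • x) (mfderiv 𝓘(ℂ, C2) 𝓘(ℂ, C2) (fun y : M => θ • y) x v)
      (mfderiv 𝓘(ℂ, C2) 𝓘(ℂ, C2) (fun y : M => θ • y) x w) = h x v w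

end Pool.Agent.P.MP_2cea5e_gt
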