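import Pool.Agent.P.MP_2cea5e_gt.Abs.Lin

/-!
Extension of the linearising chart to an affine toric chart.
-/

open scoped ContDiff ComplexOrder Manifold Matrix Topology
open Set Metric Filter

noncomputable section

namespace Pool.Agent.P.MP_2cea5e_gt.Abs

theorem mon_mul (m : Matrix (Fin 2) (Fin 2) ℤ) (u v : C2) : mon m (u * v) = mon m u * mon m v := by
  funext j; simp [mon, mul_zpow, Finset.prod_mul_distrib]

theorem mon_one (m : Matrix (Fin 2) (Fin 2) ℤ) : mon m 1 = 1 := by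
  funext j; simp [mon]

theorem mon_ne (m : Matrix (Fin 2) (Fin 2) ℤ) {u : C2} (hu : ∀ k, u k ≠ 0) (j : Fin 2) :
    mon m u j ≠ 0 :=
  Finset.prod_ne_zero_iff.2 fun k _ => zpow_ne_zero _ (hu k)

theorem unit_det {m : Matrix (Fin 2) (Fin 2) ℤ}
    (h : ∀ θ : C2ˣ, (∀ j, ‖(θ : C2) j‖ = 1) → mon m θ = 1 → θ = 1) : IsUnit m.det := by
  have key : ∀ ξ : Fin 2 → ℝ, (∀ j, ∃ n : ℤ, ∑ k, (m j k : ℝ) * ξ k = n) →
      ∀ k, ∃ n : ℤ, ξ k = n := fun ξ hξ k => by
    have h1 := h (ex fun k => ξ k * (2 * Real.pi * Complex.I))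
      (fun j => by simp [Complex.norm_exp]) (by
        funext j
        obtain ⟨n, hn⟩ := hξ j
        rw [mon_ex, Pi.one_apply, Complex.exp_eq_one_iff]
        refine ⟨n, ?_⟩
        have := congrArg (fun x : ℝ => (x : ℂ)) hn
        simp only [Fin.sum_univ_two] at this ⊢
        push_cast at this
        rw [← this]; ring)
    have h2 : Complex.exp (ξ k * (2 * Real.pi * Complex.I)) = 1 := by
      have := congrFun (congrArg Units.val h1) k
      simpa using this
    obtain ⟨n, hn⟩ := Complex.exp_eq_one_iff.1 h2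
    exact ⟨n, by exact_mod_cast mul_right_cancel₀ Complex.two_pi_I_ne_zero hn⟩
  have hd : m.det ≠ 0 := fun h0 => by
    obtain ⟨v, hv, hm⟩ := Matrix.exists_mulVec_eq_zero_iff.2 h0
    obtain ⟨k, hk⟩ := Function.ne_iff.1 hv
    have hk' : (v k : ℝ) ≠ 0 := by exact_mod_cast hk
    obtain ⟨n, hn⟩ := key (fun l => v l / (2 * v k)) (fun j => ⟨0, by
      have := congrFun hm j
      simp only [Matrix.mulVec, dotProduct, Fin.sum_univ_two, Pi.zero_apply] at this ⊢
      have h2 : (m j 0 : ℝ) * v 0 + m j 1 * v 1 = 0 := by exact_mod_cast this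
      field_simp
      linear_combination h2⟩) k
    have h3 : (1 : ℝ) = 2 * n := by
      field_simp at hn
      linarith
    have h4 : (1 : ℤ) = 2 * n := by exact_mod_cast h3
    omega
  have hd' : (m.det : ℝ) ≠ 0 := by exact_mod_cast hd
  have e : (m.det : ℝ) = m 0 0 * m 1 1 - m 0 1 * m 1 0 := by
    rw [Matrix.det_fin_two]; push_cast; ring
  have k1 := key ![m 1 1 / m.det, -m 1 0 / m.det] fun j => by
    fin_cases j
    · exact ⟨1, by simp [Fin.sum_univ_two]; field_simp; linear_combination -e⟩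
    · exact ⟨0, by simp [Fin.sum_univ_two]; field_simp; ring⟩
  have k2 := key ![-m 0 1 / m.det, m 0 0 / m.det] fun j => by
    fin_cases j
    · exact ⟨0, by simp [Fin.sum_univ_two]; field_simp; ring⟩
    · exact ⟨1, by simp [Fin.sum_univ_two]; field_simp; linear_combination -e⟩
  obtain ⟨a, ha⟩ := k1 0
  obtain ⟨b, hb⟩ := k1 1
  simp only [Matrix.cons_val_zero, Matrix.cons_val_one] at ha hb
  rw [div_eq_iff hd'] at ha hb
  obtain ⟨c, hc⟩ := k2 0
  obtain ⟨d, hd2⟩ := k2 1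
  simp only [Matrix.cons_val_zero, Matrix.cons_val_one] at hc hd2
  rw [div_eq_iff hd'] at hc hd2
  have : (m.det : ℝ) * (d * a - c * b) = 1 := by
    apply mul_left_cancel₀ hd'
    linear_combination -e - (m 0 0 : ℝ) * ha - (a : ℝ) * m.det * hd2 - (m 0 1 : ℝ) * hb +
      (b : ℝ) * m.det * hc
  exact IsUnit.of_mul_eq_one (d * a - c * b) (by exact_mod_cast this)

theorem mon_surj {m : Matrix (Fin 2) (Fin 2) ℤ} (h : IsUnit m.det) (u : C2ˣ) :
    ∃ g : C2ˣ, mon m g = u ∧ ((∀ j, ‖(u : C2) j‖ = 1) → ∀ j, ‖(g : C2) j‖ = 1) := by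
  refine ⟨un (mon m⁻¹ u), ?_, fun hu j => ?_⟩
  · rw [un_val (mon_ne _ (unit_ne u))]
    funext j
    have h1 := congrFun (congrFun (Matrix.mul_nonsing_inv m h) j)
    have h0 := h1 0
    have h1 := h1 1
    simp only [Matrix.mul_apply, Fin.sum_univ_two] at h0 h1
    simp only [mon, Fin.prod_univ_two, mul_zpow, ← zpow_mul]
    rw [mul_mul_mul_comm, ← zpow_add₀ (unit_ne u 0), ← zpow_add₀ (unit_ne u 1),
      mul_comm (m⁻¹ 0 0), mul_comm (m⁻¹ 1 0), mul_comm (m⁻¹ 0 1), mul_comm (m⁻¹ 1 1), h0, h1]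
    fin_cases j <;> simp [Matrix.one_apply]
  · rw [un_val (mon_ne _ (unit_ne u))]
    exact norm_mon _ hu j

variable {M : Type} [TopologicalSpace M] [T2Space M] [ChartedSpace C2 M] [IsManifold IC 1 M]
  [MulAction C2ˣ M] [ContMDiffSMul IC IC 1 C2ˣ M] {q : M}

theorem LC.eqv_re (C : LC M q) (ξ : Fin 2 → ℝ) {z : C2} (hz : z ∈ ball (0 : C2) C.r)
    (hz' : mon C.m (ex fun k => ξ k) * z ∈ ball (0 : C2) C.r) :
    C.φ (mon C.m (ex fun k => ξ k) * z) = ex (fun k => (ξ k : ℂ)) • C.φ z := by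
  let c : Fin 2 → ℝ := fun j => ∑ k, (C.m j k : ℝ) * ξ k
  have e1 : ∀ s : ℂ, mon C.m (ex fun k => s * ξ k) * z = fun j => Complex.exp (s * c j) * z j :=
    fun s => by
      funext j
      rw [Pi.mul_apply, mon_ex]
      simp only [c, Fin.sum_univ_two]
      push_cast
      ring_nf
  have d1 : Differentiable ℂ fun s : ℂ => mon C.m (ex fun k => s * ξ k) * z := by
    simp only [e1]
    exact differentiable_pi.2 fun j => by fun_prop
  let D : Set ℂ := {s | mon C.m (ex fun k => s * ξ k) * z ∈ ball (0 : C2) C.r}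
  have hD : D = ⋂ j, {s ∈ (univ : Set ℂ) | ‖z j‖ • Real.exp ((c j • Complex.reLm) s) < C.r} := by
    ext s
    simp only [D, mem_ofPred_eq, e1, mem_ball_zero_iff, pi_norm_lt_iff C.pos, mem_iInter, mem_univ,
      true_and, norm_mul, Complex.norm_exp, smul_eq_mul, LinearMap.smul_apply, Complex.reLm_coe,
      Complex.mul_re, Complex.ofReal_re, Complex.ofReal_im, mul_zero, sub_zero]
    simp only [mul_comm]
  have hc : Convex ℝ D := by
    rw [hD]
    exact convex_iInter fun j =>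
      ((convexOn_exp.comp_linearMap (c j • Complex.reLm)).smul (norm_nonneg (z j))).convex_lt _
  have hT : ∀ t : ℝ, ∀ j, ‖(ex fun k => (t * Complex.I) * ξ k : C2ˣ).1 j‖ = 1 := fun t j => by
    simp [Complex.norm_exp]
  have := ident (f := fun s : ℂ => C.φ (mon C.m (ex fun k => s * ξ k) * z))
    (g := fun s : ℂ => ex (fun k => s * ξ k) • C.φ z) (U := D)
    (isOpen_ball.preimage d1.continuous) hc.isPreconnected
    (fun s hs => (C.dφ _ hs).comp s (mdifferentiableAt_iff_differentiableAt.2 (d1 s)))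
    (fun s _ => md_smul ((diff_ex _).comp s (differentiableAt_pi.2 fun j => by fun_prop))
      mdifferentiableAt_const) (z := 0)
    (by simpa [D, e1] using hz) (freq_im _ fun t => C.eqv _ (hT t) z hz)
    (x := 1) (by simpa only [D, mem_ofPred_eq, one_mul] using hz')
  simpa only [one_mul] using this

theorem LC.eqv_all (C : LC M q) (g : C2ˣ) {z : C2} (hz : z ∈ ball (0 : C2) C.r)
    (hz' : mon C.m g * z ∈ ball (0 : C2) C.r) : C.φ (mon C.m g * z) = g • C.φ z := by
  let θ := ex fun j => ((Complex.log ((g : C2) j)).im : ℝ) * Complex.I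
  have hθ : ∀ j, ‖(θ : C2) j‖ = 1 := fun j => by simp [θ, Complex.norm_exp]
  have e : g = ex (fun j => ((Complex.log ((g : C2) j)).re : ℝ)) * θ := by
    rw [← ex_add]
    conv_lhs => rw [← ex_log g]
    congr 1
    funext j
    exact (Complex.re_add_im _).symm
  rw [e, Units.val_mul, mon_mul, mul_assoc] at hz' ⊢
  rw [C.eqv_re _ (mul_mem_ball (fun j => (norm_mon _ hθ j).le) hz) hz', C.eqv θ hθ z hz, mul_smul]

theorem ext_ok : StExt := by
  intro M _ _ _ _ _ _ _ x₀ q hd C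
  have h0 : (0 : C2) ∈ ball (0 : C2) C.r := mem_ball_self C.pos
  have det : IsUnit C.m.det := unit_det fun θ hθ h1 =>
    eff hd (p := C.φ 0) (eventually_of_mem (C.opn.mem_nhds ⟨0, h0, rfl⟩) (by
      rintro _ ⟨z, hz, rfl⟩
      rw [← C.eqv θ hθ z hz, h1, one_mul]))
  have small : ∀ R : ℝ, ∃ g : C2ˣ, ∀ z : C2, ‖z‖ ≤ R → mon C.m g * z ∈ ball (0 : C2) C.r :=
    fun R => by
      have hp : 0 < C.r / (|R| + 1) := div_pos C.pos (by positivity)
      obtain ⟨g, hg, _⟩ := mon_surj det (un fun _ => (C.r / (|R| + 1) : ℝ))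
      refine ⟨g, fun z hz => ?_⟩
      rw [hg, un_val fun _ => Complex.ofReal_ne_zero.2 hp.ne', mem_ball_zero_iff,
        pi_norm_lt_iff C.pos]
      intro j
      rw [Pi.mul_apply, norm_mul, Complex.norm_real, Real.norm_of_nonneg hp.le, div_mul_eq_mul_div,
        div_lt_iff₀ (by positivity)]
      have := (norm_le_pi_norm z j).trans (hz.trans (le_abs_self R))
      exact mul_lt_mul_of_pos_left (by linarith) C.pos
  choose γ hγ using small
  have cancel : ∀ (g : C2ˣ) (z : C2), mon C.m (g⁻¹ : C2ˣ) * (mon C.m g * z) = z := fun g z => by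
    rw [← mul_assoc, ← mon_mul, Units.inv_mul, mon_one, one_mul]
  let Φ : C2 → M := fun z => (γ ‖z‖)⁻¹ • C.φ (mon C.m (γ ‖z‖) * z)
  have hΦ : ∀ (g : C2ˣ) (z : C2), mon C.m g * z ∈ ball (0 : C2) C.r →
      g • Φ z = C.φ (mon C.m g * z) := fun g z hz => by
    have e : mon C.m g * z = mon C.m (g * (γ ‖z‖)⁻¹ : C2ˣ) * (mon C.m (γ ‖z‖) * z) := by
      rw [Units.val_mul, mon_mul, mul_assoc, cancel]
    rw [e] at hz ⊢
    rw [C.eqv_all _ (hγ _ z le_rfl) hz, mul_smul]
  have eqv : ∀ (g : C2ˣ) (z : C2), Φ (mon C.m g * z) = g • Φ z := fun g z => by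
    have h1 := hγ _ (mon C.m g * z) le_rfl
    have h2 := hΦ _ _ h1
    rw [← mul_assoc, ← mon_mul, ← Units.val_mul] at h1 h2
    rw [← hΦ _ _ h1, mul_smul] at h2
    exact smul_left_cancel _ h2
  have inj : Function.Injective Φ := fun z w h => by
    have h1 := hγ (max ‖z‖ ‖w‖) z (le_max_left _ _)
    have h2 := hγ (max ‖z‖ ‖w‖) w (le_max_right _ _)
    have h3 := congrArg C.ψ ((hΦ _ _ h1).symm.trans (h ▸ hΦ _ _ h2))
    rw [C.left _ h1, C.left _ h2] at h3
    rw [← cancel (γ (max ‖z‖ ‖w‖)) z, h3, cancel]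
  have dΦ : ∀ z, MDifferentiableAt IC IC Φ z := fun z => by
    have h1 := hγ _ z le_rfl
    have d : Differentiable ℂ fun w : C2 => mon C.m (γ ‖z‖) * w := differentiable_id.const_mul _
    refine ((md_act (γ ‖z‖)⁻¹ _).comp z ((C.dφ _ h1).comp z
      (mdifferentiableAt_iff_differentiableAt.2 (d z)))).congr_of_eventuallyEq ?_
    filter_upwards [d.continuous.continuousAt.eventually_mem (isOpen_ball.mem_nhds h1)] with w hw
    simp only [Function.comp, ← hΦ _ _ hw, inv_smul_smul]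
  have near : ∀ z, ∀ᶠ x in 𝓝 (Φ z), Φ (mon C.m ((γ ‖z‖)⁻¹ : C2ˣ) * C.ψ (γ ‖z‖ • x)) = x :=
    fun z => by
      have h1 := hγ _ z le_rfl
      filter_upwards [(cont_act (M := M) (γ ‖z‖)).continuousAt.eventually_mem
        (C.opn.mem_nhds ⟨_, h1, (hΦ _ _ h1).symm⟩)] with x ⟨w, hw, hx⟩
      have h2 := hΦ 1 w (by simpa [mon_one] using hw)
      rw [one_smul, Units.val_one, mon_one, one_mul] at h2
      rw [eqv, ← hx, C.left _ hw, h2, hx, inv_smul_smul]
  let Ψ := Function.invFun Φ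
  have left : ∀ z, Ψ (Φ z) = z := Function.leftInverse_invFun inj
  have dΨ : ∀ z, MDifferentiableAt IC IC Ψ (Φ z) := fun z => by
    have h1 := hγ _ z le_rfl
    have d : Differentiable ℂ fun w : C2 => mon C.m ((γ ‖z‖)⁻¹ : C2ˣ) * w :=
      differentiable_id.const_mul _
    have h2 := C.dψ _ h1
    rw [← hΦ _ _ h1] at h2
    refine ((mdifferentiableAt_iff_differentiableAt.2 (d _)).comp (Φ z)
      (h2.comp (Φ z) (md_act (γ ‖z‖) _))).congr_of_eventuallyEq ?_
    filter_upwards [near z] with x hx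
    conv_lhs => rw [← hx, left]
    rfl
  have opn : IsOpen (range Φ) := isOpen_iff_mem_nhds.2 (by
    rintro _ ⟨z, rfl⟩
    exact (near z).mono fun x hx => ⟨_, hx⟩)
  obtain ⟨a, ha, hx⟩ : ∃ a : C2, (∀ j, a j ≠ 0) ∧ Φ a = x₀ := by
    have h1 : ∀ᶠ x in 𝓝 (Φ 1), ∀ j, Ψ x j ≠ 0 := eventually_all.2 fun j =>
      ((continuous_apply j).continuousAt.comp (dΨ 1).continuousAt).eventually_ne
        (by simp [left])
    obtain ⟨_, ⟨h2, w, rfl⟩, g, hg⟩ := mem_closure_iff_nhds.1 (hd (Φ 1)) _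
      (h1.and (opn.mem_nhds ⟨1, rfl⟩))
    rw [left] at h2
    refine ⟨mon C.m (g⁻¹ : C2ˣ) * w, fun j => mul_ne_zero (mon_ne _ (unit_ne _) j) (h2 j), ?_⟩
    rw [eqv, ← hg, inv_smul_smul]
  have ca : ∀ z : C2, a⁻¹ * (a * z) = z := fun z => by
    funext j; simp [ha j]
  have ca' : ∀ z : C2, a * (a⁻¹ * z) = z := fun z => by
    funext j; simp [ha j]
  refine ⟨⟨C.m, fun z => Φ (a * z), fun x => a⁻¹ * Ψ x, det, fun z => (dΦ _).comp z
    (mdifferentiableAt_iff_differentiableAt.2 (differentiableAt_id.const_mul a)),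
    fun z => MDifferentiableAt.comp (g := fun w : C2 => a⁻¹ * w) (f := Ψ) _
      (mdifferentiableAt_iff_differentiableAt.2 (differentiableAt_id.const_mul a⁻¹)) (dΨ _), fun z => by rw [left, ca], ?_,
    fun g z => by rw [← eqv, mul_left_comm], ?_, by rw [mul_one, hx]⟩⟩
  · convert opn using 1
    exact Subset.antisymm (range_subset_iff.2 fun z => ⟨_, rfl⟩)
      (range_subset_iff.2 fun z => ⟨a⁻¹ * z, by simp only [ca']⟩)
  · have h2 := hΦ 1 0 (by simpa using h0)
    rw [one_smul, mul_zero, C.zero] at h2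
    rw [mul_zero, h2]

end Pool.Agent.P.MP_2cea5e_gt.Abs
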