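import Pool.Agent.P.MP_2cea5e_gt.Abs.Basic

/-!
The toric charts at the fixed points form a complete fan and cover the surface.
-/

open scoped ContDiff ComplexOrder Manifold Matrix Topology
open Set Metric Filter

noncomputable section

namespace Pool.Agent.P.MP_2cea5e_gt.Abs

/-- The torus element that acts on a chart with matrix `m` as `ex w`. -/
def rho (m : Matrix (Fin 2) (Fin 2) ℤ) (w : C2) : C2ˣ :=
  ex ((m⁻¹).map (Int.cast : ℤ → ℂ) *ᵥ w)

/-- The real linear forms of a chart. -/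
def av (m : Matrix (Fin 2) (Fin 2) ℤ) (ξ : Fin 2 → ℝ) (j : Fin 2) : ℝ := ∑ k, (m j k : ℝ) * ξ k

section Alg
variable {m : Matrix (Fin 2) (Fin 2) ℤ}

theorem mon_ex' (v : C2) : mon m (ex v) = ex (m.map (Int.cast : ℤ → ℂ) *ᵥ v) := by
  funext j
  rw [mon_ex, ex_val]
  rfl

theorem map_mul_inv (hm : IsUnit m.det) :
    m.map (Int.cast : ℤ → ℂ) * (m⁻¹).map (Int.cast : ℤ → ℂ) = 1 := by
  have := Matrix.map_mul (L := m) (M := m⁻¹) (f := Int.castRingHom ℂ)
  rw [Matrix.mul_nonsing_inv m hm] at this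
  simpa using this.symm

theorem map_inv_mul (hm : IsUnit m.det) :
    (m⁻¹).map (Int.cast : ℤ → ℂ) * m.map (Int.cast : ℤ → ℂ) = 1 := by
  have := Matrix.map_mul (L := m⁻¹) (M := m) (f := Int.castRingHom ℂ)
  rw [Matrix.nonsing_inv_mul m hm] at this
  simpa using this.symm

theorem mon_rho (hm : IsUnit m.det) (w : C2) : mon m (rho m w) = ex w := by
  rw [rho, mon_ex', Matrix.mulVec_mulVec, map_mul_inv hm, Matrix.one_mulVec]

theorem rho_add (v w : C2) : rho m (v + w) = rho m v * rho m w := by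
  rw [rho, Matrix.mulVec_add, ex_add]; rfl

theorem rho_zero : rho m 0 = 1 := by
  rw [rho, Matrix.mulVec_zero, ex_zero]

theorem rho_surj (hm : IsUnit m.det) (g : C2ˣ) : ∃ w, rho m w = g :=
  ⟨m.map (Int.cast : ℤ → ℂ) *ᵥ fun j => Complex.log ((g : C2) j), by
    rw [rho, Matrix.mulVec_mulVec, map_inv_mul hm, Matrix.one_mulVec, ex_log]⟩

theorem exp_one_ne : Complex.exp 1 ≠ 1 := fun h => by
  have := congrArg norm h
  rw [Complex.norm_exp, norm_one, Complex.one_re, Real.exp_eq_one_iff] at this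
  exact one_ne_zero this

theorem rho_ne (hm : IsUnit m.det) (j : Fin 2) : rho m (Pi.single j 1) ≠ 1 := fun h => by
  have := congrFun (mon_rho hm (Pi.single j 1)) j
  rw [h] at this
  simp only [mon, Units.val_one, Pi.one_apply, one_zpow, Finset.prod_const_one, ex_val,
    Pi.single_eq_same] at this
  exact exp_one_ne this.symm

theorem diff_rho (j : Fin 2) :
    Differentiable ℂ fun s : ℂ => (rho m (Pi.single j s) : C2) := by
  refine diff_ex.comp (differentiable_pi.2 fun k => ?_)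
  simp only [Matrix.mulVec_single, Pi.smul_apply, MulOpposite.smul_eq_mul_unop,
    MulOpposite.unop_op]
  fun_prop

theorem cont_av (j : Fin 2) : Continuous fun ξ => av m ξ j := by
  unfold av; fun_prop

theorem av_unit (hm : IsUnit m.det) : IsUnit (m.map (Int.cast : ℤ → ℝ)) := by
  rw [Matrix.isUnit_iff_isUnit_det]
  have := (Int.castRingHom ℝ).map_det m
  have h2 := hm.map (Int.castRingHom ℝ)
  rwa [this] at h2

theorem av_surj (hm : IsUnit m.det) (b : Fin 2 → ℝ) : ∃ ξ, av m ξ = b :=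
  Matrix.mulVec_surjective_iff_isUnit.2 (av_unit hm) b

theorem av_inj (hm : IsUnit m.det) {ξ : Fin 2 → ℝ} (h : ∀ j, av m ξ j = 0) : ξ = 0 :=
  Matrix.mulVec_injective_iff_isUnit.2 (av_unit hm)
    (by rw [Matrix.mulVec_zero]; exact funext h)

theorem av_sub (ξ η : Fin 2 → ℝ) (ε : ℝ) (j : Fin 2) :
    av m (ξ - ε • η) j = av m ξ j - ε * av m η j := by
  simp only [av, Fin.sum_univ_two, Pi.sub_apply, Pi.smul_apply, smul_eq_mul]; ring

theorem other (j : Fin 2) : ∃ k, k ≠ j ∧ ∀ i, i = j ∨ i = k := by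
  revert j; decide

theorem split_cone (hm : IsUnit m.det) {ξ : Fin 2 → ℝ} (h0 : ξ ≠ 0) (h : ∀ j, av m ξ j ≤ 0)
    (hn : ¬∀ j, av m ξ j < 0) :
    ∃ j k, k ≠ j ∧ (∀ i, i = j ∨ i = k) ∧ av m ξ j = 0 ∧ av m ξ k < 0 := by
  obtain ⟨j, hj⟩ := not_forall.1 hn
  obtain ⟨k, hk, hi⟩ := other j
  have e : av m ξ j = 0 := le_antisymm (h j) (not_lt.1 hj)
  refine ⟨j, k, hk, hi, e, lt_of_le_of_ne (h k) fun e' => h0 (av_inj hm fun i => ?_)⟩
  rcases hi i with rfl | rfl <;> assumption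

theorem exists_compl {v₀ : C2} (h : v₀ ≠ 0) : ∃ v : C2, ∀ u : C2, ∃ s t : ℂ, s • v₀ + t • v = u := by
  obtain ⟨j, hj⟩ := Function.ne_iff.1 h
  obtain ⟨k, hk, hi⟩ := other j
  simp only [Pi.zero_apply] at hj
  refine ⟨Pi.single k 1, fun u => ⟨u j / v₀ j, u k - u j / v₀ j * v₀ k, funext fun i => ?_⟩⟩
  rcases hi i with rfl | rfl
  · simp [Pi.single_eq_of_ne hk.symm, hj]
  · simp

end Alg

variable {M : Type} [TopologicalSpace M] [ChartedSpace C2 M] [MulAction C2ˣ M] {x₀ q : M}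

theorem TC.cont (C : TC M x₀ q) : Continuous C.Φ :=
  continuous_iff_continuousAt.2 fun z => (C.dΦ z).continuousAt

theorem TC.inj (C : TC M x₀ q) : Function.Injective C.Φ :=
  Function.LeftInverse.injective C.left

theorem TC.act (C : TC M x₀ q) (w z : C2) : rho C.m w • C.Φ z = C.Φ (ex w * z) := by
  rw [← C.eqv, mon_rho C.det]

theorem TC.inv (C : TC M x₀ q) (g : C2ˣ) {p : M} (h : g • p ∈ range C.Φ) : p ∈ range C.Φ := by
  obtain ⟨z, hz⟩ := h
  exact ⟨_, by rw [C.eqv g⁻¹, hz, inv_smul_smul]⟩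

theorem TC.fix (C : TC M x₀ q) {p : M} (hp : ∀ g : C2ˣ, g • p = p) (h : p ∈ range C.Φ) :
    p = q := by
  obtain ⟨z, rfl⟩ := h
  have h1 := C.inj ((C.act 1 z).symm.trans (hp _))
  have : z = 0 := funext fun j => by
    have := congrFun h1 j
    simp only [Pi.mul_apply, ex_val, Pi.one_apply] at this
    by_contra hz
    exact exp_one_ne (mul_right_cancel₀ hz (by rw [this, one_mul]))
  rw [this, C.zero]

/-- The real one-parameter orbit of the base point. -/
def ray (x₀ : M) (ξ : Fin 2 → ℝ) (s : ℝ) : M := ex (fun k => ((s * ξ k : ℝ) : ℂ)) • x₀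

theorem TC.ray_eq (C : TC M x₀ q) (ξ : Fin 2 → ℝ) (s : ℝ) :
    ray x₀ ξ s = C.Φ fun j => ((Real.exp (s * av C.m ξ j) : ℝ) : ℂ) := by
  have := C.eqv (ex fun k => ((s * ξ k : ℝ) : ℂ)) 1
  rw [C.one, mul_one] at this
  rw [ray, ← this]
  congr 1
  funext j
  rw [mon_ex]
  simp only [av, Fin.sum_univ_two]
  push_cast
  congr 1
  ring

theorem TC.tend (C : TC M x₀ q) {ξ : Fin 2 → ℝ} (h : ∀ j, av C.m ξ j ≤ 0) :
    Tendsto (ray x₀ ξ) atTop (𝓝 (C.Φ fun j => if av C.m ξ j = 0 then 1 else 0)) := by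
  rw [funext (C.ray_eq ξ)]
  refine (C.cont.tendsto _).comp (tendsto_pi_nhds.2 fun j => ?_)
  split_ifs with hj
  · simp [hj]
  · have h1 : Tendsto (fun s : ℝ => s * av C.m ξ j) atTop atBot :=
      tendsto_id.atTop_mul_const_of_neg (lt_of_le_of_ne (h j) hj)
    exact (Complex.continuous_ofReal.tendsto' 0 0 Complex.ofReal_zero).comp
      (Real.tendsto_exp_atBot.comp h1)

theorem TC.tend_zero (C : TC M x₀ q) {ξ : Fin 2 → ℝ} (h : ∀ j, av C.m ξ j < 0) :
    Tendsto (ray x₀ ξ) atTop (𝓝 q) := by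
  have := C.tend fun j => (h j).le
  simp only [fun j => (h j).ne, if_false] at this
  rw [← C.zero]
  exact this

theorem TC.of_tend (C : TC M x₀ q) {ξ : Fin 2 → ℝ} {z : C2}
    (h : Tendsto (ray x₀ ξ) atTop (𝓝 (C.Φ z))) (j : Fin 2) : av C.m ξ j ≤ 0 := by
  by_contra hj
  have h1 := (C.dΨ z).continuousAt.tendsto.comp h
  rw [funext (C.ray_eq ξ)] at h1
  have h2 := (Complex.continuous_re.tendsto _).comp (tendsto_pi_nhds.1 h1 j)
  simp only [Function.comp_def, C.left, Complex.ofReal_re] at h2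
  exact not_tendsto_nhds_of_tendsto_atTop
    (Real.tendsto_exp_atTop.comp (tendsto_id.atTop_mul_const (not_le.1 hj))) _ h2

/-- The one-dimensional orbit along the axis `j`. -/
def TC.axis (C : TC M x₀ q) (j : Fin 2) : Set M := {p | ∃ l : ℂ, l ≠ 0 ∧ C.Φ (Pi.single j l) = p}

theorem TC.end_ne [CompactSpace M] (C : TC M x₀ q) (j : Fin 2) :
    ∃ p ∈ closure (C.axis j), p ∉ range C.Φ := by
  obtain ⟨p, -, hp⟩ := isCompact_univ.exists_mapClusterPt (f := (atTop : Filter ℕ))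
    (u := fun n : ℕ => C.Φ (Pi.single j ((n : ℂ) + 1))) (by simp)
  refine ⟨p, mem_closure_iff_frequently.2 ?_, ?_⟩
  · intro hn
    obtain ⟨n, hn⟩ := (hp.frequently hn).exists
    exact hn ⟨_, Nat.cast_add_one_ne_zero n, rfl⟩
  · rintro ⟨z, rfl⟩
    have h1 := hp.continuousAt_comp (C.dΨ z).continuousAt
    have h2 := h1.continuousAt_comp (f := fun w : C2 => (w j).re)
      (Complex.continuous_re.comp (continuous_apply j)).continuousAt
    simp only [Function.comp_def, C.left, Pi.single_eq_same] at h2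
    have h3 := h2.frequently (p := fun x => x < (z j).re + 1) (gt_mem_nhds (lt_add_one _))
    obtain ⟨n, h4, h5⟩ := (h3.and_eventually
      (tendsto_natCast_atTop_atTop.eventually_ge_atTop (z j).re)).exists
    simp at h4
    linarith

variable [T2Space M] [IsManifold IC 1 M] [ContMDiffSMul IC IC 1 C2ˣ M]

omit [IsManifold IC 1 M] in
theorem TC.fix_axis (C : TC M x₀ q) {j k : Fin 2} (hk : k ≠ j) (t : ℂ) {p : M}
    (hp : p ∈ closure (C.axis j)) : rho C.m (Pi.single k t) • p = p := by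
  refine closure_minimal ?_ (isClosed_eq (cont_act _) continuous_id) hp
  rintro _ ⟨l, -, rfl⟩
  change _ • _ = C.Φ _
  rw [C.act]
  congr 1
  funext i
  by_cases hi : i = j
  · subst hi; simp [Pi.single_eq_of_ne hk.symm]
  · simp [Pi.single_eq_of_ne hi]

omit [T2Space M] [IsManifold IC 1 M] in
theorem TC.move_axis (C : TC M x₀ q) (j : Fin 2) (s : ℂ) {p : M}
    (hp : p ∈ closure (C.axis j)) : rho C.m (Pi.single j s) • p ∈ closure (C.axis j) := by
  refine map_mem_closure (cont_act _) hp ?_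
  rintro _ ⟨l, hl, rfl⟩
  refine ⟨Complex.exp s * l, mul_ne_zero (Complex.exp_ne_zero s) hl, ?_⟩
  rw [C.act]
  congr 1
  funext i
  by_cases hi : i = j
  · subst hi; simp
  · simp [Pi.single_eq_of_ne hi]

theorem TC.deriv_zero [FaithfulSMul C2ˣ M] (hd : Dense (MulAction.orbit C2ˣ x₀))
    (C : TC M x₀ q) (j : Fin 2) {p : M} (hp : p ∈ closure (C.axis j)) (hn : p ∉ range C.Φ)
    {e : OpenPartialHomeomorph M C2} (he : e ∈ atlas C2 M) (hs : p ∈ e.source) :
    deriv (fun s : ℂ => e (rho C.m (Pi.single j s) • p)) 0 = 0 := by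
  by_contra hv
  obtain ⟨v, hv⟩ := exists_compl hv
  obtain ⟨k, hk, -⟩ := other j
  set c : ℂ → C2ˣ := fun s => rho C.m (Pi.single j s) with hc
  have c0 : c 0 = 1 := by simp [hc, rho_zero]
  let y : ℂ → M := fun t => e.symm (e p + t • v)
  have y0 : y 0 = p := by simp [y, e.left_inv hs]
  have ht : ∀ᶠ t : ℂ in 𝓝 0, e p + t • v ∈ e.target := by
    have : Continuous fun t : ℂ => e p + t • v := by fun_prop
    exact this.continuousAt.eventually_mem (e.open_target.mem_nhds (by simpa using e.map_source hs))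
  have hy : ∀ᶠ t : ℂ in 𝓝 0, MDifferentiableAt 𝓘(ℂ, ℂ) IC y t :=
    ht.mono fun t h => md_symm he h (by fun_prop)
  have snd : Tendsto (Prod.snd : ℂ × ℂ → ℂ) (𝓝 0) (𝓝 0) := continuous_snd.tendsto 0
  have hm : ∀ᶠ x : ℂ × ℂ in 𝓝 0, MDifferentiableAt 𝓘(ℂ, ℂ × ℂ) IC (fun x => c x.1 • y x.2) x :=
    (snd.eventually ht).mono fun x h =>
      md_smul ((diff_rho j _).comp x differentiableAt_fst)
        (md_symm (f := fun x : ℂ × ℂ => e p + x.2 • v) he h (by fun_prop))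
  have hsrc : ∀ᶠ x : ℂ × ℂ in 𝓝 0, c x.1 • y x.2 ∈ e.source :=
    hm.self_of_nhds.continuousAt.eventually_mem
      (e.open_source.mem_nhds (by simpa [c0, y0] using hs))
  let Θ : ℂ × ℂ → C2 := fun x => e (c x.1 • y x.2)
  have hΘ : ∀ᶠ x in 𝓝 0, DifferentiableAt ℂ Θ x :=
    (hm.and hsrc).mono fun x h => md_chart he h.2 h.1
  obtain ⟨U, hU, oU, mU⟩ := _root_.eventually_nhds_iff.1 hΘ
  have hst : HasStrictFDerivAt Θ (fderiv ℂ Θ 0) 0 :=
    ((CLS.S0.contDiffOn_of_diffOn oU (fun x hx => (hU x hx).differentiableWithinAt)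
      (n := 1)).contDiffAt (oU.mem_nhds mU)).hasStrictFDerivAt one_ne_zero
  have d1 : fderiv ℂ Θ 0 (1, 0) = deriv (fun s : ℂ => e (c s • p)) 0 := by
    have h1 : HasDerivAt (fun s : ℂ => ((s, 0) : ℂ × ℂ)) (1, 0) 0 :=
      (hasDerivAt_id 0).prodMk (hasDerivAt_const 0 0)
    have h2 := (hst.hasFDerivAt.comp_hasDerivAt_of_eq 0 h1 rfl).deriv
    simpa [Function.comp_def, Θ, y0] using h2.symm
  have d2 : fderiv ℂ Θ 0 (0, 1) = v := by
    have h1 : HasDerivAt (fun t : ℂ => ((0, t) : ℂ × ℂ)) (0, 1) 0 :=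
      (hasDerivAt_const 0 0).prodMk (hasDerivAt_id 0)
    have h2 := hst.hasFDerivAt.comp_hasDerivAt_of_eq 0 h1 rfl
    have h3 : HasDerivAt (fun t : ℂ => e p + t • v) v 0 := by
      simpa using ((hasDerivAt_id (0 : ℂ)).smul_const v).const_add (e p)
    refine h2.unique (h3.congr_of_eventuallyEq (ht.mono fun t h => ?_))
    simp [Θ, c0, y, e.right_inv h]
  have hmap : map Θ (𝓝 0) = 𝓝 (e p) := by
    have := hst.map_nhds_eq_of_surj (LinearMap.range_eq_top.2 fun u => by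
      obtain ⟨s, t, h⟩ := hv u
      refine ⟨s • (1, 0) + t • (0, 1), ?_⟩
      change fderiv ℂ Θ 0 _ = u
      rw [map_add, map_smul, map_smul, d1, d2, h])
    simpa [Θ, c0, y0] using this
  have key : ∀ P : ℂ → Prop, (∀ᶠ t in 𝓝 0, P t) → ∀ᶠ a in 𝓝 p, ∃ s t, P t ∧ a = c s • y t := by
    intro P hP
    have h1 : Θ '' {x | P x.2 ∧ c x.1 • y x.2 ∈ e.source} ∈ 𝓝 (e p) :=
      hmap ▸ image_mem_map ((snd.eventually hP).and hsrc)
    filter_upwards [(e.continuousAt hs).eventually_mem h1, e.open_source.mem_nhds hs] with a ha ha'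
    obtain ⟨x, hx, hx'⟩ := ha
    exact ⟨x.1, x.2, hx.1, e.injOn ha' hx.2 hx'.symm⟩
  set g := rho C.m (Pi.single k 1)
  by_cases hf : ∃ᶠ t in 𝓝[≠] (0 : ℂ), g • y t = y t
  · have h1 := ident_loc (hy.mono fun t h => (md_act g _).comp t h) hy hf
    refine rho_ne C.det k (eff hd (p := p) ((key _ h1).mono ?_))
    rintro _ ⟨s, t, h, rfl⟩
    rw [smul_comm]
    exact congrArg _ h
  · have h1 := eventually_nhdsWithin_iff.1 (not_frequently.1 hf)
    obtain ⟨a, ⟨s, t, h, rfl⟩, ha⟩ :=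
      ((key _ h1).and_frequently (mem_closure_iff_frequently.1 hp)).exists
    have h2 : g • c s • y t = c s • y t := C.fix_axis hk 1 (subset_closure ha)
    rw [smul_comm] at h2
    have h3 : t = 0 := by
      by_contra h0
      exact h h0 (smul_left_cancel _ h2)
    obtain ⟨l, -, hl⟩ := ha
    rw [h3, y0] at hl
    exact hn (C.inv _ ⟨_, hl⟩)

theorem TC.end_fix [FaithfulSMul C2ˣ M] (hd : Dense (MulAction.orbit C2ˣ x₀))
    (C : TC M x₀ q) (j : Fin 2) {p : M} (hp : p ∈ closure (C.axis j)) (hn : p ∉ range C.Φ)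
    (g : C2ˣ) : g • p = p := by
  set c : ℂ → C2ˣ := fun s => rho C.m (Pi.single j s) with hc
  have c0 : c 0 = 1 := by simp [hc, rho_zero]
  have md : ∀ s, MDifferentiableAt 𝓘(ℂ, ℂ) IC (fun s => c s • p) s := fun s =>
    md_smul (diff_rho j s) mdifferentiableAt_const
  set e := chartAt C2 p
  have he : e ∈ atlas C2 M := chart_mem_atlas _ _
  have hs : p ∈ e.source := mem_chart_source _ _
  have h1 : ∀ᶠ s in 𝓝 (0 : ℂ), c s • p ∈ e.source :=
    (md 0).continuousAt.eventually_mem (e.open_source.mem_nhds (by simpa [c0] using hs))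
  obtain ⟨r, hr, hb⟩ := eventually_nhds_iff_ball.1 h1
  have h2 : ∀ s ∈ ball (0 : ℂ) r, c s • p = p := fun s hs' => by
    have := isOpen_ball.is_const_of_deriv_eq_zero (𝕜 := ℂ) (f := fun s => e (c s • p))
      (convex_ball (0 : ℂ) r).isPreconnected
      (fun s hs => (md_chart (f := fun s => c s • p) he (hb s hs) (md s)).differentiableWithinAt)
      (fun s hs => by
        have h3 := C.deriv_zero hd j (C.move_axis j s hp) (fun h => hn (C.inv _ h)) he (hb s hs)
        have h4 := deriv_comp_add_const (fun s => e (c s • p)) s 0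
        rw [zero_add] at h4
        rw [← h4, Pi.zero_apply, ← h3]
        congr 1
        funext u
        simp only [hc, Pi.single_add, rho_add, mul_smul]) hs' (mem_ball_self hr)
    simp only [c0, one_smul] at this
    exact e.injOn (hb s hs') hs this
  have h3 : ∀ s, c s • p = p := fun s =>
    ident (g := fun _ => p) isOpen_univ isPreconnected_univ (fun s _ => md s)
      (fun _ _ => mdifferentiableAt_const) (mem_univ 0)
      ((eventually_of_mem (ball_mem_nhds 0 hr) h2).filter_mono nhdsWithin_le_nhds).frequently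
      (mem_univ s)
  obtain ⟨w, rfl⟩ := rho_surj C.det g
  obtain ⟨k, hk, hi⟩ := other j
  have : w = Pi.single j (w j) + Pi.single k (w k) := funext fun i => by
    rcases hi i with rfl | rfl
    · simp [Pi.single_eq_of_ne hk.symm]
    · simp [Pi.single_eq_of_ne hk]
  rw [this, rho_add, mul_smul, C.fix_axis hk _ hp]
  exact h3 _

omit [IsManifold IC 1 M] in
theorem fix_finite [CompactSpace M] (C : ∀ σ : Fix M, TC M x₀ σ.1) : Finite (Fix M) := by
  have hc : IsClosed {p : M | ∀ g : C2ˣ, g • p = p} := by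
    rw [ofPred_forall]
    exact isClosed_iInter fun g => isClosed_eq (cont_act g) continuous_id
  obtain ⟨t, ht⟩ := hc.isCompact.elim_finite_subcover (fun σ : Fix M => range (C σ).Φ)
    (fun σ => (C σ).opn) fun p hp => mem_iUnion.2 ⟨⟨p, hp⟩, 0, (C ⟨p, hp⟩).zero⟩
  refine finite_univ_iff.1 (t.finite_toSet.subset fun σ _ => ?_)
  obtain ⟨τ, h1, h2⟩ := mem_iUnion₂.1 (ht σ.2)
  rwa [Subtype.ext ((C τ).fix σ.2 h2)]

omit [IsManifold IC 1 M] [ContMDiffSMul IC IC 1 C2ˣ M] in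
theorem fan_disj {q' : M} (C : TC M x₀ q) (C' : TC M x₀ q') {ξ : Fin 2 → ℝ}
    (h : ∀ j, av C.m ξ j < 0) (h' : ∀ j, av C'.m ξ j < 0) : q = q' :=
  tendsto_nhds_unique (C.tend_zero h) (C'.tend_zero h')

theorem cone_nhds [CompactSpace M] [FaithfulSMul C2ˣ M] (hd : Dense (MulAction.orbit C2ˣ x₀))
    (C : ∀ σ : Fix M, TC M x₀ σ.1) (σ : Fix M) {ξ : Fin 2 → ℝ} (h0 : ξ ≠ 0)
    (h : ∀ j, av (C σ).m ξ j ≤ 0) : ∀ᶠ η in 𝓝 ξ, ∃ τ, ∀ j, av (C τ).m η j ≤ 0 := by
  by_cases hn : ∀ j, av (C σ).m ξ j < 0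
  · exact (eventually_all.2 fun j => (cont_av j).continuousAt.eventually_lt_const (hn j)).mono
      fun η hη => ⟨σ, fun j => (hη j).le⟩
  obtain ⟨j, j', hj, hi, e0, e1⟩ := split_cone (C σ).det h0 h hn
  obtain ⟨p, hp, hp'⟩ := (C σ).end_ne j
  let τ : Fix M := ⟨p, (C σ).end_fix hd j hp hp'⟩
  obtain ⟨a, ha, l, hl, rfl⟩ := mem_closure_iff.1 hp _ (C τ).opn ⟨0, (C τ).zero⟩
  have lim := (C σ).tend h
  obtain ⟨z, hz⟩ : ((C σ).Φ fun i => if av (C σ).m ξ i = 0 then 1 else 0) ∈ range (C τ).Φ := by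
    refine (C τ).inv (rho (C σ).m (Pi.single j (Complex.log l))) ?_
    rw [(C σ).act]
    convert ha using 2
    funext i
    rcases hi i with rfl | rfl
    · simp [e0, Complex.exp_log hl]
    · simp [e1.ne, Pi.single_eq_of_ne hj]
  have h' := (C τ).of_tend (hz ▸ lim)
  obtain ⟨k, k', -, hi', f0, f1⟩ := split_cone (C τ).det h0 h' fun hlt =>
    hp' ⟨_, tendsto_nhds_unique lim ((C τ).tend_zero hlt)⟩
  have near : ∀ᶠ η in 𝓝 ξ, av (C σ).m η j' < 0 ∧ av (C τ).m η k' < 0 :=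
    ((cont_av j').continuousAt.eventually_lt_const e1).and
      ((cont_av k').continuousAt.eventually_lt_const f1)
  refine near.mono fun η hη => ?_
  by_cases a1 : av (C σ).m η j ≤ 0
  · exact ⟨σ, fun i => by rcases hi i with rfl | rfl; exacts [a1, hη.1.le]⟩
  by_cases a2 : av (C τ).m η k ≤ 0
  · exact ⟨τ, fun i => by rcases hi' i with rfl | rfl; exacts [a2, hη.2.le]⟩
  have t1 : Tendsto (fun ε : ℝ => ξ - ε • η) (𝓝[>] 0) (𝓝 ξ) := by
    have : Continuous fun ε : ℝ => ξ - ε • η := by fun_prop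
    simpa using (this.tendsto 0).mono_left nhdsWithin_le_nhds
  obtain ⟨ε, b1, b2⟩ := ((t1.eventually near).and self_mem_nhdsWithin).exists
  have b2 : 0 < ε := b2
  refine (hp' ⟨0, (C σ).zero.trans (fan_disj (C σ) (C τ) (ξ := ξ - ε • η) (fun i => ?_)
    fun i => ?_)⟩).elim
  · rcases hi i with rfl | rfl
    · rw [av_sub, e0]; nlinarith [mul_pos b2 (not_le.1 a1)]
    · exact b1.1
  · rcases hi' i with rfl | rfl
    · rw [av_sub, f0]; nlinarith [mul_pos b2 (not_le.1 a2)]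
    · exact b1.2

theorem fan_ok : StFan := by
  intro M _ _ _ _ _ _ _ _ x₀ hd ⟨σ₀⟩ C
  have hfin := fix_finite C
  have cov : ∀ ξ : Fin 2 → ℝ, ∃ σ, ∀ j, av (C σ).m ξ j ≤ 0 := by
    let S : Set (Fin 2 → ℝ) := {ξ | ∃ σ, ∀ j, av (C σ).m ξ j ≤ 0}
    have hS : IsClosed S := by
      simp only [S, ofPred_exists, ofPred_forall]
      exact isClosed_iUnion_of_finite fun σ => isClosed_iInter fun j =>
        isClosed_le (cont_av j) continuous_const
    have loc : S ∩ {0}ᶜ ⊆ interior S := fun ξ ⟨⟨σ, h⟩, h0⟩ =>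
      mem_interior_iff_mem_nhds.2 (cone_nhds hd C σ h0 h)
    obtain ⟨ξ₀, h₀⟩ := av_surj (C σ₀).det fun _ => -1
    have n0 : ξ₀ ∈ ({0}ᶜ : Set (Fin 2 → ℝ)) := fun h => by
      have := congrFun h₀ 0
      rw [mem_singleton_iff.1 h] at this
      simp [av] at this
    have := (isConnected_compl_singleton_of_one_lt_rank (E := Fin 2 → ℝ) (by simp) 0
      ).isPreconnected.subset_of_closure_inter_subset (isOpen_interior (s := S))
      ⟨ξ₀, n0, loc ⟨⟨σ₀, fun j => by rw [h₀]; norm_num⟩, n0⟩⟩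
      fun ξ hξ => loc ⟨closure_minimal interior_subset hS hξ.1, hξ.2⟩
    intro ξ
    by_cases h : ξ = 0
    · exact ⟨σ₀, fun j => by simp [h, av]⟩
    · exact interior_subset (s := S) (this h)
  refine ⟨hfin, ⟨⟨fun σ => (C σ).det, cov⟩, fun σ τ hne ξ h h' =>
    hne (Subtype.ext (fan_disj (C σ) (C τ) h h'))⟩, fun x => ?_⟩
  have hK : IsClosed (⋃ σ, (C σ).Φ '' closedBall 0 1) :=
    (isCompact_iUnion fun σ => (isCompact_closedBall 0 1).image (C σ).cont).isClosed
  have : x ∈ ⋃ σ, (C σ).Φ '' closedBall 0 1 := by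
    refine closure_minimal ?_ hK (hd x)
    rintro _ ⟨g, rfl⟩
    obtain ⟨σ, h⟩ := cov fun k => (Complex.log ((g : C2) k)).re
    refine mem_iUnion.2 ⟨σ, mon (C σ).m g, ?_, ?_⟩
    · rw [mem_closedBall_zero_iff, pi_norm_le_iff_of_nonneg zero_le_one]
      intro j
      rw [← ex_log g, mon_ex, Complex.norm_exp, Real.exp_le_one_iff]
      simpa [av] using h j
    · have := (C σ).eqv g 1
      rwa [mul_one, (C σ).one] at this
  obtain ⟨σ, z, -, hz⟩ := mem_iUnion.1 this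
  exact ⟨σ, z, hz⟩

end Pool.Agent.P.MP_2cea5e_gt.Abs
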