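import Pool.Agent.P.MP_2cea5e_gt.Abs.Basic

/-!
Linearisation of the action of the compact torus at a fixed point by averaging.
-/

open scoped ContDiff ComplexOrder Manifold Matrix Topology
open Set Metric Filter MeasureTheory UnitAddTorus

noncomputable section

namespace Pool.Agent.P.MP_2cea5e_gt.Abs

/-- The compact torus. -/
abbrev TT := UnitAddTorus (Fin 2)

/-- Its Haar measure. -/
def μT : Measure TT := Measure.pi fun _ => (AddCircle.haarAddCircle : Measure UnitAddCircle)

instance : μT.IsAddHaarMeasure := by unfold μT; infer_instance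

instance : IsProbabilityMeasure μT := by unfold μT; infer_instance

/-- The compact torus in the complex torus. -/
def τ (t : TT) : C2ˣ :=
  ⟨fun j => (t j).toCircle, fun j => ((t j).toCircle⁻¹ : Circle),
    by funext j; simp, by funext j; simp⟩

theorem τ_val (t : TT) (j : Fin 2) : (τ t : C2) j = (t j).toCircle := rfl

theorem τ_add (s t : TT) : τ (s + t) = τ s * τ t := by
  ext j; simp [τ_val, AddCircle.toCircle_add]

theorem τ_zero : τ 0 = 1 := by
  ext j; simp [τ_val]

theorem τ_norm (t : TT) (j : Fin 2) : ‖(τ t : C2) j‖ = 1 := by simp [τ_val]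

theorem cont_τ_val : Continuous fun t : TT => (τ t : C2) :=
  continuous_pi fun j => continuous_subtype_val.comp
    (AddCircle.continuous_toCircle.comp (continuous_apply j))

theorem cont_τ : Continuous τ :=
  Units.isOpenEmbedding_val.isInducing.continuous_iff.2 cont_τ_val

theorem τ_surj {θ : C2ˣ} (h : ∀ j, ‖(θ : C2) j‖ = 1) : ∃ t, τ t = θ := by
  refine ⟨fun j => (AddCircle.homeomorphCircle (T := 1) one_ne_zero).symm
    ⟨(θ : C2) j, by simpa [Submonoid.unitSphere] using h j⟩, ?_⟩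
  ext j
  rw [τ_val, ← AddCircle.homeomorphCircle_apply one_ne_zero, Homeomorph.apply_symm_apply]

theorem mF_eq (a : Fin 2 → ℤ) (t : TT) : mFourier a t = ∏ k, (τ t : C2) k ^ a k := by
  simp only [mFourier, ContinuousMap.coe_mk, fourier_apply, AddCircle.toCircle_zsmul, τ_val,
    Circle.coe_zpow]

theorem mF_shift (a : Fin 2 → ℤ) (s t : TT) :
    mFourier (-a) t = mFourier a s * mFourier (-a) (t + s) := by
  have h : ∀ k, (τ s : C2) k ≠ 0 := unit_ne _
  have h0 := h 0
  have h1 := h 1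
  simp only [mF_eq, τ_add, Fin.prod_univ_two, Units.val_mul, Pi.mul_apply, Pi.neg_apply, mul_zpow,
    zpow_neg]
  field_simp

theorem fourier_zero_of {f : TT → ℂ} (hf : Continuous f)
    (h : ∀ a, ∫ t, mFourier (-a) t • f t ∂μT = 0) : f 0 = 0 := by
  have h1 : mFourierCoeff (⟨f, hf⟩ : C(TT, ℂ)) = 0 := funext h
  have h2 := hasSum_mFourier_series_apply_of_summable (f := ⟨f, hf⟩)
    (by rw [h1]; exact summable_zero) 0
  rw [h1] at h2
  simp only [Pi.zero_apply, zero_smul] at h2
  exact h2.unique hasSum_zero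

theorem avg {Ξ : C2 × C2 → C2} {Ω : Set (C2 × C2)} (hΩ : IsOpen Ω) (hΞ : DifferentiableOn ℂ Ξ Ω)
    {B : Set C2} (hB : IsOpen B) (hs : ∀ t, ∀ z ∈ B, ((τ t : C2), z) ∈ Ω) {c : TT → ℂ}
    (hc : Continuous c) {z₀ : C2} (hz : z₀ ∈ B) :
    Continuous (fun t => (fderiv ℂ Ξ (τ t, z₀)).comp (ContinuousLinearMap.inr ℂ C2 C2)) ∧
    HasFDerivAt (fun z => ∫ t, c t • Ξ (τ t, z) ∂μT)
      (∫ t, c t • (fderiv ℂ Ξ (τ t, z₀)).comp (ContinuousLinearMap.inr ℂ C2 C2) ∂μT) z₀ := by
  have hD : ContinuousOn (fderiv ℂ Ξ) Ω :=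
    (CLS.S0.contDiffOn_of_diffOn hΩ hΞ (n := 1)).continuousOn_fderiv_of_isOpen hΩ le_rfl
  obtain ⟨ε, hε, hK⟩ := nhds_basis_closedBall.mem_iff.1 (hB.mem_nhds hz)
  have c1 : Continuous fun p : C2 × TT => (((τ p.2 : C2), p.1) : C2 × C2) :=
    (cont_τ_val.comp continuous_snd).prodMk continuous_fst
  have c2 : ContinuousOn (fun p : C2 × TT =>
      (fderiv ℂ Ξ (τ p.2, p.1)).comp (ContinuousLinearMap.inr ℂ C2 C2)) (B ×ˢ univ) :=
    (hD.comp c1.continuousOn fun p hp => hs _ _ hp.1).clm_comp continuousOn_const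
  have c3 : ∀ z ∈ B, Continuous fun t =>
      (fderiv ℂ Ξ (τ t, z)).comp (ContinuousLinearMap.inr ℂ C2 C2) := fun z hz =>
    c2.comp_continuous (continuous_const.prodMk continuous_id) fun t => ⟨hz, mem_univ _⟩
  have c4 : ∀ z ∈ B, Continuous fun t => c t • Ξ (τ t, z) := fun z hz =>
    hc.smul (hΞ.continuousOn.comp_continuous (cont_τ_val.prodMk continuous_const)
      fun t => hs t z hz)
  obtain ⟨C, hC⟩ := ((isCompact_closedBall z₀ ε).prod isCompact_univ).exists_bound_of_continuousOn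
    (((hc.comp continuous_snd).continuousOn).smul (c2.mono (prod_mono hK Subset.rfl)))
  refine ⟨c3 _ hz, hasFDerivAt_integral_of_dominated_of_fderiv_le (s := closedBall z₀ ε)
    (bound := fun _ => C)
    (F' := fun z t => c t • (fderiv ℂ Ξ (τ t, z)).comp (ContinuousLinearMap.inr ℂ C2 C2))
    (closedBall_mem_nhds _ hε)
    (eventually_of_mem (hB.mem_nhds hz) fun z hz => (c4 z hz).aestronglyMeasurable)
    ((c4 _ hz).integrable_of_hasCompactSupport (HasCompactSupport.of_compactSpace _))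
    (hc.smul (c3 _ hz)).aestronglyMeasurable
    (Eventually.of_forall fun t z hz => hC (z, t) ⟨hz, mem_univ _⟩) (integrable_const _)
    (Eventually.of_forall fun t z hz => ?_)⟩
  exact ((hΞ.differentiableAt (hΩ.mem_nhds (hs t z (hK hz)))).hasFDerivAt.comp z
    (hasFDerivAt_prodMk_right _ z)).const_smul (c t)

theorem pick {D : (Fin 2 → ℤ) → C2 →L[ℂ] C2} (h : ∀ v, (∀ a i, D a v i = 0) → v = 0) :
    ∃ (m : Matrix (Fin 2) (Fin 2) ℤ) (i : Fin 2 → Fin 2) (L : C2 ≃L[ℂ] C2),
      ∀ v j, L v j = D (m j) v (i j) := by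
  have dec : ∀ v : C2, v = v 0 • (Pi.single 0 1 : C2) + v 1 • (Pi.single 1 1 : C2) := fun v => by
    funext j; fin_cases j <;> simp
  obtain ⟨a, i, h1⟩ : ∃ a i, D a (Pi.single 0 1) i ≠ 0 := by
    by_contra hc
    push Not at hc
    simpa using congrFun (h _ hc) 0
  obtain ⟨b, k, h2⟩ : ∃ b k, D b ![-D a (Pi.single 1 1) i, D a (Pi.single 0 1) i] k ≠ 0 := by
    by_contra hc
    push Not at hc
    exact h1 (by simpa using congrFun (h _ hc) 1)
  rw [dec ![_, _]] at h2
  simp only [map_add, map_smul, Pi.add_apply, Pi.smul_apply, smul_eq_mul, Matrix.cons_val_zero,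
    Matrix.cons_val_one] at h2
  let L : C2 →ₗ[ℂ] C2 := LinearMap.pi fun j =>
    (LinearMap.proj ((![i, k] : Fin 2 → Fin 2) j)).comp (D ((![a, b] : Fin 2 → Fin 2 → ℤ) j)).toLinearMap
  have hL : Function.Injective L := by
    rw [injective_iff_map_eq_zero]
    intro v hv
    have e0 : D a v i = 0 := congrFun hv 0
    have e1 : D b v k = 0 := congrFun hv 1
    rw [dec v] at e0 e1
    simp only [map_add, map_smul, Pi.add_apply, Pi.smul_apply, smul_eq_mul] at e0 e1
    have f1 : v 1 = 0 := by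
      refine (mul_eq_zero.1 (?_ : v 1 * _ = 0)).resolve_right h2
      linear_combination D a (Pi.single 0 1) i * e1 - D b (Pi.single 0 1) k * e0
    have f0 : v 0 = 0 := by
      rw [f1, zero_mul, add_zero] at e0
      exact (mul_eq_zero.1 e0).resolve_right h1
    funext j; fin_cases j
    · exact f0
    · exact f1
  exact ⟨Matrix.of ![a, b], ![i, k], (LinearEquiv.ofInjectiveEndo L hL).toContinuousLinearEquiv,
    fun v j => rfl⟩

theorem norm_mon (m : Matrix (Fin 2) (Fin 2) ℤ) {θ : C2} (h : ∀ j, ‖θ j‖ = 1) (j : Fin 2) :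
    ‖mon m θ j‖ = 1 := by
  simp [mon, h]

theorem mul_mem_ball {u z : C2} {r : ℝ} (hu : ∀ j, ‖u j‖ ≤ 1) (hz : z ∈ ball (0 : C2) r) :
    u * z ∈ ball (0 : C2) r := by
  rw [mem_ball_zero_iff] at hz ⊢
  refine lt_of_le_of_lt ((pi_norm_le_iff_of_nonneg (norm_nonneg _)).2 fun j => ?_) hz
  rw [Pi.mul_apply, norm_mul]
  exact (mul_le_of_le_one_left (norm_nonneg _) (hu j)).trans (norm_le_pi_norm z j)

theorem diff_un {g : C2} (hg : ∀ j, g j ≠ 0) : (fun w => (un w : C2)) =ᶠ[𝓝 g] id := by
  have : ∀ᶠ w : C2 in 𝓝 g, ∀ j, w j ≠ 0 :=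
    eventually_all.2 fun j => (continuous_apply j).continuousAt.eventually_ne (hg j)
  exact this.mono fun w hw => un_val hw

theorem tube {M : Type} [TopologicalSpace M] [ChartedSpace C2 M] [MulAction C2ˣ M]
    [ContMDiffSMul IC IC 1 C2ˣ M] {V : Set M} (hV : IsOpen V) :
    IsOpen {x : M | ∀ t, τ t • x ∈ V} := by
  refine isOpen_iff_mem_nhds.2 fun x hx => ?_
  have c : Continuous fun p : M × TT => τ p.2 • p.1 :=
    cont_smul.comp ((cont_τ.comp continuous_snd).prodMk continuous_fst)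
  have := isCompact_univ.eventually_forall_of_forall_eventually (x₀ := x)
    (P := fun y t => τ t • y ∈ V) fun t _ => c.continuousAt (hV.mem_nhds (hx t))
  exact this.mono fun y hy t => hy t (mem_univ _)

theorem lin_ok : StLin := by
  intro M _ _ _ _ _ q hq
  set e := chartAt C2 q
  have he : e ∈ atlas C2 M := chart_mem_atlas _ _
  have hqs : q ∈ e.source := mem_chart_source _ _
  let Ξ : C2 × C2 → C2 := fun p => e (un p.1 • e.symm p.2) - e q
  let Ω : Set (C2 × C2) :=
    {p | (∀ j, p.1 j ≠ 0) ∧ p.2 ∈ e.target ∧ un p.1 • e.symm p.2 ∈ e.source}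
  have hmd : ∀ p ∈ Ω, MDifferentiableAt 𝓘(ℂ, C2 × C2) IC
      (fun p : C2 × C2 => un p.1 • e.symm p.2) p := fun p hp =>
    md_smul ((differentiableAt_id.congr_of_eventuallyEq (diff_un hp.1)).comp p
      differentiableAt_fst) (md_symm he hp.2.1 differentiableAt_snd)
  have hΩ : IsOpen Ω := isOpen_iff_mem_nhds.2 fun p hp => by
    have h1 : ∀ᶠ y : C2 × C2 in 𝓝 p, ∀ j, y.1 j ≠ 0 := eventually_all.2 fun j =>
      ((continuous_apply j).comp continuous_fst).continuousAt.eventually_ne (hp.1 j)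
    exact h1.and ((continuous_snd.continuousAt.eventually_mem (e.open_target.mem_nhds hp.2.1)).and
      ((hmd p hp).continuousAt.eventually_mem (e.open_source.mem_nhds hp.2.2)))
  have hΞ : DifferentiableOn ℂ Ξ Ω := fun p hp =>
    ((md_chart (f := fun p : C2 × C2 => un p.1 • e.symm p.2) he hp.2.2
      (hmd p hp)).sub_const _).differentiableWithinAt
  let B : Set C2 := e.target ∩ e.symm ⁻¹' {x | ∀ t, τ t • x ∈ e.source}
  have hB : IsOpen B := e.isOpen_inter_preimage_symm (tube e.open_source)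
  have hs : ∀ t, ∀ z ∈ B, ((τ t : C2), z) ∈ Ω := fun t z hz =>
    ⟨unit_ne (τ t), hz.1, by rw [un_unit]; exact hz.2 t⟩
  have hqB : e q ∈ B := ⟨e.map_source hqs, fun t => by
    rw [e.left_inv hqs, hq _ (τ_norm t)]; exact hqs⟩
  let A : TT → C2 →L[ℂ] C2 := fun t =>
    (fderiv ℂ Ξ (τ t, e q)).comp (ContinuousLinearMap.inr ℂ C2 C2)
  have hA : Continuous A := (avg hΩ hΞ hB hs continuous_const (c := fun _ => 0) hqB).1
  have hA0 : A 0 = ContinuousLinearMap.id ℂ C2 := by
    have h1 := (hΞ.differentiableAt (hΩ.mem_nhds (hs 0 _ hqB))).hasFDerivAt.comp (e q)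
      (hasFDerivAt_prodMk_right ((τ 0 : C2ˣ) : C2) (e q))
    refine h1.unique (((hasFDerivAt_id (e q)).sub_const (e q)).congr_of_eventuallyEq ?_)
    filter_upwards [e.open_target.mem_nhds hqB.1] with z hz
    simp only [Ξ, Function.comp, un_unit, τ_zero, one_smul, e.right_inv hz, id]
  have hi : ∀ a : Fin 2 → ℤ, Integrable (fun t => mFourier (-a) t • A t) μT := fun a =>
    ((mFourier (-a)).continuous.smul hA).integrable_of_hasCompactSupport
      (HasCompactSupport.of_compactSpace _)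
  obtain ⟨m, i, L, hL⟩ := pick (D := fun a => ∫ t, mFourier (-a) t • A t ∂μT) fun v hv => by
    funext k
    have := fourier_zero_of (f := fun t => A t v k)
      ((continuous_apply k).comp (hA.clm_apply continuous_const)) fun a => by
        have h1 := hv a k
        rw [ContinuousLinearMap.integral_apply (hi a), eval_integral
          (integrable_pi_iff.1 ((hi a).apply_continuousLinearMap v))] at h1
        exact h1
    simpa [hA0] using this
  let ψ : M → C2 := fun x j => (∫ t, mFourier (-m j) t • (e (τ t • x) - e q) ∂μT) (i j)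
  have hψ : ∀ s x, ψ (τ s • x) = mon m (τ s) * ψ x := fun s x => by
    funext j
    have h1 : (fun t => mFourier (-m j) t • (e (τ t • τ s • x) - e q)) = fun t =>
        mFourier (m j) s • (mFourier (-m j) (t + s) • (e (τ (t + s) • x) - e q)) := by
      funext t
      rw [smul_smul (mFourier (m j) s), ← mF_shift, τ_add, mul_smul]
    simp only [ψ, Pi.mul_apply]
    rw [h1, integral_smul, integral_add_right_eq_self
      (fun t => mFourier (-m j) t • (e (τ t • x) - e q)) s, mF_eq]
    rfl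
  let G : C2 → C2 := fun z => ψ (e.symm z)
  have hG : ∀ z ∈ B, HasFDerivAt G (ContinuousLinearMap.pi fun j =>
      (ContinuousLinearMap.proj (i j)).comp (∫ t, mFourier (-m j) t •
        (fderiv ℂ Ξ (τ t, z)).comp (ContinuousLinearMap.inr ℂ C2 C2) ∂μT)) z := fun z hz => by
    refine hasFDerivAt_pi.2 fun j => ?_
    have := (avg hΩ hΞ hB hs (mFourier (-m j)).continuous hz).2
    simp only [Ξ, un_unit] at this
    exact (hasFDerivAt_apply (i j) _).comp z this
  have hGd : DifferentiableOn ℂ G B := fun z hz => (hG z hz).differentiableAt.differentiableWithinAt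
  have hGL : HasFDerivAt G (L : C2 →L[ℂ] C2) (e q) := by
    refine (hG _ hqB).congr_fderiv (ContinuousLinearMap.ext fun v => ?_)
    funext j
    exact (hL v j).symm
  have hG1 : ContDiffAt ℂ 1 G (e q) :=
    (CLS.S0.contDiffOn_of_diffOn hB hGd).contDiffAt (hB.mem_nhds hqB)
  have hG0 : G (e q) = 0 := by
    funext j
    simp only [G, ψ, e.left_inv hqs, hq _ (τ_norm _), sub_self, smul_zero, integral_zero,
      Pi.zero_apply]
  set P := hG1.toOpenPartialHomeomorph G hGL one_ne_zero
  have hPs : e q ∈ P.source := hG1.mem_toOpenPartialHomeomorph_source hGL one_ne_zero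
  have hPt : (0 : C2) ∈ P.target :=
    hG0 ▸ hG1.image_mem_toOpenPartialHomeomorph_target hGL one_ne_zero
  have hP0 : P.symm 0 = e q := hG0 ▸ P.left_inv hPs
  have hPd : ∀ᶠ z in 𝓝 (0 : C2), DifferentiableAt ℂ P.symm z := by
    have := (hG1.to_localInverse hGL one_ne_zero).eventually (by simp)
    rw [hG0] at this
    exact this.mono fun z hz => hz.differentiableAt one_ne_zero
  let V : Set M := e.source ∩ e ⁻¹' P.source
  have hV : IsOpen V := e.isOpen_inter_preimage P.open_source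
  have hinj : InjOn ψ V := fun x hx y hy hxy => e.injOn hx.1 hy.1 (P.injOn hx.2 hy.2 (by
    show ψ (e.symm (e x)) = ψ (e.symm (e y))
    rw [e.left_inv hx.1, e.left_inv hy.1, hxy]))
  have cP : ContinuousAt P.symm 0 := P.continuousAt_symm hPt
  have ev : ∀ᶠ z in 𝓝 (0 : C2), z ∈ P.target ∧ DifferentiableAt ℂ P.symm z ∧
      P.symm z ∈ B ∩ (e.target ∩ e.symm ⁻¹' {x | ∀ t, τ t • x ∈ V}) := by
    refine Eventually.and (P.open_target.mem_nhds hPt) (hPd.and (cP.eventually_mem ?_))
    rw [hP0]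
    refine (hB.inter (e.isOpen_inter_preimage_symm (tube hV))).mem_nhds ⟨hqB, hqB.1, fun t => ?_⟩
    rw [e.left_inv hqs, hq _ (τ_norm t)]
    exact ⟨hqs, hPs⟩
  obtain ⟨r, hr, hb⟩ := Metric.eventually_nhds_iff_ball.1 ev
  have left : ∀ z ∈ ball (0 : C2) r, ψ (e.symm (P.symm z)) = z := fun z hz =>
    P.right_inv (hb z hz).1
  refine ⟨⟨m, r, fun z => e.symm (P.symm z), ψ, hr,
    fun z hz => md_symm he (hb z hz).2.2.1.1 (hb z hz).2.1, fun z hz => ?_, left, ?_,
    fun θ hθ z hz => ?_, by simp only [hP0, e.left_inv hqs]⟩⟩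
  · have h1 := (hb z hz).2.2.1
    have h2 : e.symm (P.symm z) ∈ e.source := e.map_target h1.1
    have h3 : DifferentiableAt ℂ G (e (e.symm (P.symm z))) := by
      rw [e.right_inv h1.1]; exact (hG _ h1).differentiableAt
    refine ((mdifferentiableAt_iff_differentiableAt.2 h3).comp _
      (mdifferentiableAt_atlas he h2)).congr_of_eventuallyEq ?_
    filter_upwards [e.open_source.mem_nhds h2] with x hx
    simp only [G, Function.comp, e.left_inv hx]
  · rw [← image_image e.symm P.symm]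
    refine e.isOpen_image_symm_of_subset_target
      (P.isOpen_image_symm_of_subset_target isOpen_ball fun z hz => (hb z hz).1) ?_
    rintro _ ⟨z, hz, rfl⟩
    exact (hb z hz).2.2.1.1
  · obtain ⟨s, rfl⟩ := τ_surj hθ
    have hz' := mul_mem_ball (fun j => (norm_mon m hθ j).le) hz
    have h1 := (hb _ hz').2.2.2.2 0
    rw [τ_zero, one_smul] at h1
    refine hinj h1 ((hb z hz).2.2.2.2 s) ?_
    rw [hψ, left _ hz', left _ hz]

end Pool.Agent.P.MP_2cea5e_gt.Abs
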