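import Pool.Agent.P.MP_2cea5e_gt.Abs.Ext

/-!
Functoriality of pull backs.
-/

open scoped ContDiff ComplexOrder Manifold Matrix Topology
open Set Metric Filter

noncomputable section

namespace Pool.Agent.P.MP_2cea5e_gt.Abs

theorem dec (v : C2) : v = v 0 • (Pi.single 0 1 : C2) + v 1 • (Pi.single 1 1 : C2) := by
  funext j; fin_cases j <;> simp

theorem pbF_apply (F : C2 → C2) (g : Fld) (z : C2) (j k : Fin 2) :
    pbF F g z j k = ∑ a, ∑ b, JJ F z a j * g (F z) a b * star (JJ F z b k) := by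
  simp only [pbF, Matrix.mul_apply, Matrix.transpose_apply, Matrix.map_apply, Fin.sum_univ_two]
  ring

theorem JJ_comp {F G : C2 → C2} {z : C2} (hF : DifferentiableAt ℂ F (G z))
    (hG : DifferentiableAt ℂ G z) : JJ (fun w => F (G w)) z = JJ F (G z) * JJ G z := by
  ext a j
  have := fderiv_comp z hF hG
  simp only [JJ, Matrix.of_apply, Matrix.mul_apply, Fin.sum_univ_two]
  rw [show (fun w => F (G w)) = F ∘ G from rfl, this, ContinuousLinearMap.comp_apply,
    dec (fderiv ℂ G z (Pi.single j 1))]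
  simp [mul_comm]

theorem JJ_congr {F G : C2 → C2} {z : C2} (h : F =ᶠ[𝓝 z] G) : JJ F z = JJ G z := by
  simp only [JJ, h.fderiv_eq]

theorem JJ_id (z : C2) : JJ id z = 1 := by
  ext a j
  simp [JJ, Matrix.one_apply, Pi.single_apply]

theorem JJ_det {F G : C2 → C2} {z : C2} (hF : DifferentiableAt ℂ F (G z))
    (hG : DifferentiableAt ℂ G z) (h : (fun w => F (G w)) =ᶠ[𝓝 z] id) : (JJ G z).det ≠ 0 := by
  have := congrArg Matrix.det ((JJ_comp hF hG).symm.trans ((JJ_congr h).trans (JJ_id z)))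
  rw [Matrix.det_mul, Matrix.det_one] at this
  exact right_ne_zero_of_mul_eq_one this

theorem pbF_comp {F G : C2 → C2} {z : C2} (hF : DifferentiableAt ℂ F (G z))
    (hG : DifferentiableAt ℂ G z) (g : Fld) :
    pbF (fun w => F (G w)) g z = pbF G (pbF F g) z := by
  simp only [pbF, JJ_comp hF hG, Matrix.transpose_mul, Matrix.mul_assoc]
  congr 3
  ext a b
  simp [Matrix.mul_apply]

theorem pbF_congr {F G : C2 → C2} {z : C2} (h : F =ᶠ[𝓝 z] G) (g : Fld) :
    pbF F g z = pbF G g z := by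
  simp only [pbF, JJ_congr h, h.self_of_nhds]

theorem pbF_id (g : Fld) (z : C2) : pbF id g z = g z := by
  simp [pbF, JJ_id]

theorem pbF_mul (θ : C2) (g : Fld) (z : C2) (j k : Fin 2) :
    pbF (fun w => θ * w) g z j k = θ j * g (θ * z) j k * star (θ k) := by
  have : ∀ a j, JJ (fun w => θ * w) z a j = if a = j then θ j else 0 := fun a j => by
    have h := ((hasFDerivAt_id (𝕜 := ℂ) z).const_mul θ).fderiv
    simp only [id] at h
    simp only [JJ, Matrix.of_apply, h]
    split_ifs with h1 <;> simp [h1]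
  rw [pbF_apply]
  fin_cases j <;> fin_cases k <;> simp [this]

theorem dz_hol {f : C2 → ℂ} {z : C2} (h : DifferentiableAt ℂ f z) (a : Fin 2) :
    dz a f z = fderiv ℂ f z (Pi.single a 1) := by
  have e : (Pi.single a Complex.I : C2) = Complex.I • (Pi.single a 1 : C2) := by
    funext j; simp [Pi.single_apply]
  rw [dz, h.fderiv_restrictScalars ℝ, ContinuousLinearMap.coe_restrictScalars', e, map_smul,
    smul_eq_mul, ← mul_assoc, Complex.I_mul_I]
  ring

theorem diff_mon (m : Matrix (Fin 2) (Fin 2) ℤ) {w : C2} (hw : ∀ k, w k ≠ 0) :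
    DifferentiableAt ℂ (mon m) w := by
  refine differentiableAt_pi.2 fun j => ?_
  simp only [mon, Fin.prod_univ_two]
  exact ((differentiableAt_apply 0 w).zpow (Or.inl (hw 0))).mul
    ((differentiableAt_apply 1 w).zpow (Or.inl (hw 1)))

theorem pb_eq (m : Matrix (Fin 2) (Fin 2) ℤ) (g : Fld) {w : C2} (hw : ∀ k, w k ≠ 0) :
    pb m g w = pbF (mon m) g w := by
  have : jac m w = JJ (mon m) w := by
    ext j a
    have h := differentiableAt_pi.1 (diff_mon m hw)
    simp only [jac, JJ, Matrix.of_apply, dz_hol (h j)]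
    rw [show mon m = fun x j => mon m x j from rfl, fderiv_pi h]
    rfl
  rw [pb, pbF, this]

theorem ev_ne {g : C2} (hg : ∀ j, g j ≠ 0) : ∀ᶠ w : C2 in 𝓝 g, ∀ j, w j ≠ 0 :=
  eventually_all.2 fun j => (continuous_apply j).continuousAt.eventually_ne (hg j)

theorem mon_inv {m : Matrix (Fin 2) (Fin 2) ℤ} (h : IsUnit m.det) {u : C2} (hu : ∀ k, u k ≠ 0) :
    mon m (mon m⁻¹ u) = u := by
  funext j
  have h1 := congrFun (congrFun (Matrix.mul_nonsing_inv m h) j)
  have h0 := h1 0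
  have h1 := h1 1
  simp only [Matrix.mul_apply, Fin.sum_univ_two] at h0 h1
  simp only [mon, Fin.prod_univ_two, mul_zpow, ← zpow_mul]
  rw [mul_mul_mul_comm, ← zpow_add₀ (hu 0), ← zpow_add₀ (hu 1),
    mul_comm (m⁻¹ 0 0), mul_comm (m⁻¹ 1 0), mul_comm (m⁻¹ 0 1), mul_comm (m⁻¹ 1 1), h0, h1]
  fin_cases j <;> simp [Matrix.one_apply]

theorem dz_congr {f g : C2 → ℂ} {z : C2} (h : f =ᶠ[𝓝 z] g) (j : Fin 2) : dz j f z = dz j g z := by
  simp only [dz, h.fderiv_eq]

theorem hess_congr {f g : C2 → ℝ} {z : C2} (h : f =ᶠ[𝓝 z] g) : hess f z = hess g z := by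
  ext j k
  refine dz_congr (h.eventuallyEq_nhds.mono fun y hy => ?_) j
  have : (fun w => (f w : ℂ)) =ᶠ[𝓝 y] fun w => (g w : ℂ) := hy.mono fun w hw => by simp only [hw]
  simp only [dzb, this.fderiv_eq]

theorem scalG_congr {f g : Fld} {z : C2} (h : f =ᶠ[𝓝 z] g) : scalG f z = scalG g z := by
  rw [scalG, scalG, h.self_of_nhds, hess_congr (g := fun w => Real.log (g w).det.re)
    (h.mono fun w hw => by simp only [hw])]

theorem sm_sum {X : Type} [NormedAddCommGroup X] [NormedSpace ℝ X] {J G : X → Matrix (Fin 2) (Fin 2) ℂ}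
    {S : Set X} {x : X} (hJ : ∀ a j, ContDiffWithinAt ℝ ∞ (fun y => J y a j) S x)
    (hG : ∀ a j, ContDiffWithinAt ℝ ∞ (fun y => G y a j) S x) (j k : Fin 2) :
    ContDiffWithinAt ℝ ∞ (fun y => ∑ a, ∑ b, J y a j * G y a b * star (J y b k)) S x :=
  ContDiffWithinAt.sum fun a _ => ContDiffWithinAt.sum fun b _ => ((hJ a j).mul (hG a b)).mul
    (Complex.conjCLE.contDiff.contDiffAt.comp_contDiffWithinAt x (hJ b k))

theorem sm_F {F : C2 → C2} {W : Set C2} (hW : IsOpen W) (hF : DifferentiableOn ℂ F W) {z : C2}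
    (hz : z ∈ W) : ContDiffAt ℝ ∞ F z :=
  ((CLS.S0.contDiffOn_of_diffOn hW hF).contDiffAt (hW.mem_nhds hz)).restrict_scalars ℝ

/-- Transfer of the Kaehler conditions. -/
theorem transfer (hT : StTens) {F : C2 → C2} {W : Set C2} (hW : IsOpen W)
    (hF : DifferentiableOn ℂ F W) {g g' : Fld} (h : ∀ y ∈ W, g' y = pbF F g y) {z : C2} (hz : z ∈ W)
    (hd : (JJ F z).det ≠ 0) (h1 : ∀ j k, ContDiffAt ℝ ∞ (fun w => g w j k) (F z))
    (h2 : (g (F z)).PosDef)
    (h3 : ∀ j k l, dz l (fun w => g w j k) (F z) = dz j (fun w => g w l k) (F z)) :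
    (∀ j k, ContDiffAt ℝ ∞ (fun w => g' w j k) z) ∧ (g' z).PosDef ∧
      ∀ j k l, dz l (fun w => g' w j k) z = dz j (fun w => g' w l k) z := by
  obtain ⟨t1, -, t3⟩ := hT F W hW hF
  have e : ∀ j k, (fun w => g' w j k) =ᶠ[𝓝 z] fun w => pbF F g w j k := fun j k =>
    eventually_of_mem (hW.mem_nhds hz) fun y hy => by simp only [h y hy]
  refine ⟨fun j k => ContDiffAt.congr_of_eventuallyEq ?_ (e j k),
    h z hz ▸ ((t3 g z hz h1).2 hd h2).1, fun j k l => ?_⟩
  · simp only [pbF_apply]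
    exact contDiffWithinAt_univ.1 (sm_sum (J := JJ F) (G := fun w => g (F w))
      (fun a j => ((t1 a j).contDiffAt (hW.mem_nhds hz)).contDiffWithinAt)
      (fun a b => ((h1 a b).comp z (sm_F hW hF hz)).contDiffWithinAt) j k)
  · rw [dz_congr (e j k), dz_congr (e l k), (t3 g z hz h1).1 h3]

variable {M : Type} [TopologicalSpace M] [ChartedSpace C2 M]

/-- The value of a field of forms. -/
def hh (h : Met M) (x : M) : C2 →ₗ[ℂ] C2 →ₗ⋆[ℂ] ℂ := h x

/-- The derivative of a parametrisation. -/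
def DD {N N' : Type} [TopologicalSpace N] [ChartedSpace C2 N] [TopologicalSpace N']
    [ChartedSpace C2 N'] (F : N → N') (z : N) : C2 →L[ℂ] C2 := mfderiv IC IC F z

theorem DD_comp {N N' N'' : Type} [TopologicalSpace N] [ChartedSpace C2 N] [TopologicalSpace N']
    [ChartedSpace C2 N'] [TopologicalSpace N''] [ChartedSpace C2 N''] {F : N' → N''} {G : N → N'}
    {z : N} (hF : MDifferentiableAt IC IC F (G z)) (hG : MDifferentiableAt IC IC G z) (v : C2) :
    DD (fun w => F (G w)) z v = DD F (G z) (DD G z v) :=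
  congrFun (congrArg DFunLike.coe (mfderiv_comp z hF hG)) v

theorem DD_congr {N N' : Type} [TopologicalSpace N] [ChartedSpace C2 N] [TopologicalSpace N']
    [ChartedSpace C2 N'] {F G : N → N'} {z : N} (h : F =ᶠ[𝓝 z] G) : DD F z = DD G z :=
  h.mfderiv_eq

theorem DD_eq (F : C2 → C2) (z : C2) : DD F z = fderiv ℂ F z := mfderiv_eq_fderiv

theorem DD_id (x : M) (v : C2) : DD (id : M → M) x v = v :=
  congrFun (congrArg DFunLike.coe (mfderiv_id (I := IC) (x := x))) v

theorem pull_apply (h : Met M) (F : C2 → M) (z : C2) (j k : Fin 2) :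
    pull h F z j k = hh h (F z) (DD F z (Pi.single j 1)) (DD F z (Pi.single k 1)) := rfl

theorem hh_exp (h : Met M) (F : C2 → M) (z v w : C2) :
    hh h (F z) (DD F z v) (DD F z w) = ∑ a, ∑ b, v a * pull h F z a b * star (w b) := by
  conv_lhs => rw [dec v, dec w]
  simp only [pull_apply, map_add, map_smul, LinearMap.map_smulₛₗ, LinearMap.add_apply,
    LinearMap.smul_apply, smul_eq_mul, Fin.sum_univ_two, RCLike.star_def]
  ring

theorem pull_congr (h : Met M) {F G : C2 → M} {z : C2} (e : F =ᶠ[𝓝 z] G) :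
    pull h F z = pull h G z := by
  ext j k
  rw [pull_apply, pull_apply, DD_congr e, e.self_of_nhds]

theorem pull_comp (h : Met M) {A : C2 → M} {F : C2 → C2} {z : C2}
    (hA : MDifferentiableAt IC IC A (F z)) (hF : DifferentiableAt ℂ F z) :
    pull h (fun w => A (F w)) z = pbF F (pull h A) z := by
  ext j k
  have hF' := mdifferentiableAt_iff_differentiableAt.2 hF
  rw [pull_apply, DD_comp hA hF', DD_comp hA hF', hh_exp, pbF_apply, DD_eq]
  rfl

theorem chg (h : Met M) {A B : C2 → M} {F : C2 → C2} {W : Set C2} (hW : IsOpen W)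
    (e : ∀ y ∈ W, B y = A (F y)) (hF : DifferentiableOn ℂ F W)
    (hA : ∀ y ∈ W, MDifferentiableAt IC IC A (F y)) {z : C2} (hz : z ∈ W) :
    pull h B z = pbF F (pull h A) z := by
  rw [← pull_comp h (hA z hz) (hF.differentiableAt (hW.mem_nhds hz))]
  exact pull_congr h (eventually_of_mem (hW.mem_nhds hz) e)

/-- The form with matrix `G` in the coordinates `A`. -/
def frm (G : Matrix (Fin 2) (Fin 2) ℂ) (A : C2 →L[ℂ] C2) : C2 →ₗ[ℂ] C2 →ₗ⋆[ℂ] ℂ :=
  LinearMap.mk₂'ₛₗ (RingHom.id ℂ) (starRingEnd ℂ)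
    (fun v w => ∑ a, ∑ b, A v a * G a b * star (A w b))
    (fun u v w => by simp [Fin.sum_univ_two]; ring) (fun c v w => by simp [Fin.sum_univ_two]; ring)
    (fun u v w => by simp [Fin.sum_univ_two]; ring) (fun c v w => by simp [Fin.sum_univ_two]; ring)

theorem frm_apply (G : Matrix (Fin 2) (Fin 2) ℂ) (A : C2 →L[ℂ] C2) (v w : C2) :
    frm G A v w = ∑ a, ∑ b, A v a * G a b * star (A w b) := rfl

end Pool.Agent.P.MP_2cea5e_gt.Abs
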