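import Pool.Agent.P.MP_2cea5e_gt.Defs3

/-!
Toric surfaces as complex manifolds with a torus action, and invariant Kaehler metrics on them.
-/

open scoped ContDiff ComplexOrder Manifold

noncomputable section

namespace Pool.Agent.P.MP_2cea5e_gt.Srf

/-- A field of sesquilinear forms on the holomorphic tangent spaces of a complex manifold `M`
modelled on `E`. -/
def Met (E : Type) [NormedAddCommGroup E] [NormedSpace ℂ E] (M : Type) [TopologicalSpace M]
    [ChartedSpace E M] : Type :=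
  ∀ x : M, TangentSpace 𝓘(ℂ, E) x →ₗ[ℂ] TangentSpace 𝓘(ℂ, E) x →ₗ⋆[ℂ] ℂ

section

variable {E : Type} [NormedAddCommGroup E] [NormedSpace ℂ E] {M N : Type} [TopologicalSpace M]
  [ChartedSpace E M] [TopologicalSpace N] [ChartedSpace E N]

/-- The value `h_x (v, w)`. -/
def Met.ev (h : Met E M) (x : M) (v w : TangentSpace 𝓘(ℂ, E) x) : ℂ := h x v w

/-- The complex differential `dF_x v`. -/
def push (F : N → M) (x : N) (v : TangentSpace 𝓘(ℂ, E) x) : TangentSpace 𝓘(ℂ, E) (F x) :=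
  mfderiv 𝓘(ℂ, E) 𝓘(ℂ, E) F x v

/-- The pull back `(F^* h)_x (v, w) = h_{F x} (dF v, dF w)`. -/
def Met.pb (h : Met E M) (F : N → M) (x : N) (v w : TangentSpace 𝓘(ℂ, E) x) : ℂ :=
  h.ev (F x) (push F x v) (push F x w)

end

variable {M : Type} [TopologicalSpace M] [ChartedSpace C2 M]

/-- The components `g_{j k̄} (z) = h(∂/∂z_j, ∂/∂z_k)` of `h` in the chart `e`. -/
def Met.comp (h : Met C2 M) (e : OpenPartialHomeomorph M C2) : Fld := fun z =>
  Matrix.of fun j k => h.pb e.symm z (Pi.single j 1 : C2) (Pi.single k 1 : C2)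

/-- The compact torus inside the complex torus. -/
def InT (θ : C2ˣ) : Prop := ∀ j, ‖(θ : C2) j‖ = 1

/-- A complex surface with an effective holomorphic action of the complex torus that has a dense
orbit. -/
structure IsTorusSurface (M : Type) [TopologicalSpace M] [ChartedSpace C2 M] [MulAction C2ˣ M] :
    Prop where
  holo : IsManifold 𝓘(ℂ, C2) 1 M
  act : ContMDiffSMul 𝓘(ℂ, C2) 𝓘(ℂ, C2) 1 C2ˣ M
  eff : FaithfulSMul C2ˣ M
  dense : ∃ x : M, Dense (MulAction.orbit C2ˣ x)

/-- A smooth Kaehler metric invariant under the compact torus. -/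
structure IsInvKaehler [MulAction C2ˣ M] (h : Met C2 M) : Prop where
  smooth : ∀ e ∈ atlas C2 M, ∀ j k, ContDiffOn ℝ ∞ (fun z => h.comp e z j k) e.target
  pos : ∀ e ∈ atlas C2 M, ∀ z ∈ e.target, (h.comp e z).PosDef
  closed : ∀ e ∈ atlas C2 M, ∀ z ∈ e.target, ∀ j k l,
    dz l (fun w => h.comp e w j k) z = dz j (fun w => h.comp e w l k) z
  inv : ∀ θ : C2ˣ, InT θ → ∀ (x : M) (v w : TangentSpace 𝓘(ℂ, C2) x),
    h.pb (fun y : M => θ • y) x v w = h.ev x v w

end Pool.Agent.P.MP_2cea5e_gt.Srf
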