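import Pool.Agent.P.MP_2cea5e_gt.Abs.Defs
import Pool.Agent.P.MP_443837_an.S0.Osg

/-!
From an abstract surface with a torus action to fan charts: statements.
-/

open scoped ContDiff ComplexOrder Manifold Matrix Topology
open Set Metric

noncomputable section

namespace Pool.Agent.P.MP_2cea5e_gt.Abs

/-- The model with corners. -/
abbrev IC := 𝓘(ℂ, C2)

/-- The complex Jacobian matrix. -/
def JJ (F : C2 → C2) (z : C2) : Matrix (Fin 2) (Fin 2) ℂ :=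
  Matrix.of fun a j => fderiv ℂ F z (Pi.single j 1) a

/-- The pull back of a matrix field. -/
def pbF (F : C2 → C2) (g : Fld) : Fld := fun z => (JJ F z)ᵀ * g (F z) * (JJ F z).map star

/-- Tensoriality under a holomorphic change of coordinates. -/
def StTens : Prop := ∀ (F : C2 → C2) (W : Set C2), IsOpen W → DifferentiableOn ℂ F W →
  (∀ a j, ContDiffOn ℝ ∞ (fun z => JJ F z a j) W) ∧
  (∀ f : C2 → ℝ, ∀ z ∈ W, ContDiffAt ℝ ∞ f (F z) → hess (fun w => f (F w)) z = pbF F (hess f) z) ∧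
  ∀ g : Fld, ∀ z ∈ W, (∀ j k, ContDiffAt ℝ ∞ (fun w => g w j k) (F z)) →
    ((∀ j k l, dz l (fun w => g w j k) (F z) = dz j (fun w => g w l k) (F z)) →
      ∀ j k l, dz l (fun w => pbF F g w j k) z = dz j (fun w => pbF F g w l k) z) ∧
    ((JJ F z).det ≠ 0 → (g (F z)).PosDef →
      (pbF F g z).PosDef ∧ scalG (pbF F g) z = scalG g (F z) ∧
        ContDiffAt ℝ ∞ (scalG g) (F z))

variable (M : Type) [TopologicalSpace M] [ChartedSpace C2 M] [MulAction C2ˣ M]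

/-- A linearising chart of the compact torus at the point `q`. -/
structure LC (q : M) where
  m : Matrix (Fin 2) (Fin 2) ℤ
  r : ℝ
  φ : C2 → M
  ψ : M → C2
  pos : 0 < r
  dφ : ∀ z ∈ ball (0 : C2) r, MDifferentiableAt IC IC φ z
  dψ : ∀ z ∈ ball (0 : C2) r, MDifferentiableAt IC IC ψ (φ z)
  left : ∀ z ∈ ball (0 : C2) r, ψ (φ z) = z
  opn : IsOpen (φ '' ball (0 : C2) r)
  eqv : ∀ θ : C2ˣ, (∀ j, ‖(θ : C2) j‖ = 1) → ∀ z ∈ ball (0 : C2) r, φ (mon m θ * z) = θ • φ z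
  zero : φ 0 = q

/-- An affine toric chart centred at the point `q`. -/
structure TC (x₀ q : M) where
  m : Matrix (Fin 2) (Fin 2) ℤ
  Φ : C2 → M
  Ψ : M → C2
  det : IsUnit m.det
  dΦ : ∀ z, MDifferentiableAt IC IC Φ z
  dΨ : ∀ z, MDifferentiableAt IC IC Ψ (Φ z)
  left : ∀ z, Ψ (Φ z) = z
  opn : IsOpen (range Φ)
  eqv : ∀ (g : C2ˣ) (z : C2), Φ (mon m g * z) = g • Φ z
  zero : Φ 0 = q
  one : Φ 1 = x₀

/-- The fixed points. -/
abbrev Fix := {q : M // ∀ g : C2ˣ, g • q = q}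

/-- Linearisation at a fixed point. -/
def StLin : Prop := ∀ (M : Type) [TopologicalSpace M] [ChartedSpace C2 M] [IsManifold IC 1 M]
  [MulAction C2ˣ M] [ContMDiffSMul IC IC 1 C2ˣ M] (q : M),
  (∀ θ : C2ˣ, (∀ j, ‖(θ : C2) j‖ = 1) → θ • q = q) → Nonempty (LC M q)

/-- Extension of the chart. -/
def StExt : Prop := ∀ (M : Type) [TopologicalSpace M] [T2Space M] [ChartedSpace C2 M]
  [IsManifold IC 1 M] [MulAction C2ˣ M] [ContMDiffSMul IC IC 1 C2ˣ M] [FaithfulSMul C2ˣ M]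
  (x₀ q : M), Dense (MulAction.orbit C2ˣ x₀) → LC M q → Nonempty (TC M x₀ q)

/-- The charts form a complete fan and cover the surface. -/
def StFan : Prop := ∀ (M : Type) [TopologicalSpace M] [T2Space M] [CompactSpace M]
  [ChartedSpace C2 M] [IsManifold IC 1 M] [MulAction C2ˣ M] [ContMDiffSMul IC IC 1 C2ˣ M]
  [FaithfulSMul C2ˣ M] (x₀ : M), Dense (MulAction.orbit C2ˣ x₀) → Nonempty (Fix M) →
  ∀ C : ∀ σ : Fix M, TC M x₀ σ.1,
    Finite (Fix M) ∧ IsFanD (fun σ => (C σ).m) ∧ ∀ x : M, ∃ σ z, (C σ).Φ z = x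

/-- The final statement. -/
def StAbs : Prop := ∀ (M : Type) [TopologicalSpace M] [T2Space M] [CompactSpace M]
  [ChartedSpace C2 M] [IsManifold 𝓘(ℂ, C2) 1 M] [MulAction C2ˣ M]
  [ContMDiffSMul 𝓘(ℂ, C2) 𝓘(ℂ, C2) 1 C2ˣ M] [FaithfulSMul C2ˣ M] (h₀ : Met M) (κ : ℝ),
  (∃ x : M, Dense (MulAction.orbit C2ˣ x)) →
  (∃ q : M, ∀ θ : C2ˣ, (∀ j, ‖(θ : C2) j‖ = 1) → θ • q = q) →
  IsInvKaehler h₀ → 0 < κ → ∃ h : ℝ → Met M, h 0 = h₀ ∧ (∀ t, 0 ≤ t → IsInvKaehler (h t)) ∧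
    ∀ e ∈ atlas C2 M,
      (∀ j k, ContDiffOn ℝ ∞ (fun q : ℝ × C2 => pull (h q.1) e.symm q.2 j k)
        (Set.Ici 0 ×ˢ e.target)) ∧
      ∀ t, 0 ≤ t → ∀ z ∈ e.target, ∀ j k, HasDerivWithinAt (fun s => pull (h s) e.symm z j k)
        ((κ : ℂ) * hess (scalG (pull (h t) e.symm)) z j k) (Set.Ici 0) t

end Pool.Agent.P.MP_2cea5e_gt.Abs
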