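import Pool.Agent.P.MP_2cea5e_gt.Abs.St

/-!
Tensoriality of the complex Hessian, of closedness and of the scalar curvature under a
holomorphic change of coordinates.
-/

open scoped ContDiff ComplexOrder Matrix Topology ComplexConjugate
open Set Filter

noncomputable section

namespace Pool.Agent.P.MP_2cea5e_gt.Abs

namespace Tens

/-- the complex linear part of a real linear form -/
def lp (j : Fin 2) (L : C2 →L[ℝ] ℂ) : ℂ :=
  (L (Pi.single j 1) - Complex.I * L (Pi.single j Complex.I)) / 2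

/-- the antilinear part of a real linear form -/
def lq (j : Fin 2) (L : C2 →L[ℝ] ℂ) : ℂ :=
  (L (Pi.single j 1) + Complex.I * L (Pi.single j Complex.I)) / 2

theorem single_dec (L : C2 →L[ℝ] ℂ) (a : Fin 2) (c : ℂ) :
    L (Pi.single a c) = lp a L * c + lq a L * conj c := by
  have h : (Pi.single a c : C2) = c.re • (Pi.single a 1 : C2) +
      c.im • (Pi.single a Complex.I : C2) := by
    rw [← Pi.single_smul, ← Pi.single_smul, ← Pi.single_add]
    congr 1
    simp
  have h1 : conj c = c.re - c.im * Complex.I := by apply Complex.ext <;> simp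
  have h2 := Complex.re_add_im c
  rw [h, map_add, map_smul, map_smul, lp, lq, h1, Complex.real_smul, Complex.real_smul]
  generalize (c.re : ℂ) = x at *
  generalize (c.im : ℂ) = y at *
  rw [← h2]
  linear_combination y * L (Pi.single a Complex.I) * Complex.I_mul_I

theorem dec (L : C2 →L[ℝ] ℂ) (v : C2) : L v = ∑ a, (lp a L * v a + lq a L * conj (v a)) := by
  conv_lhs => rw [← Finset.univ_sum_single v, map_sum]
  exact Finset.sum_congr rfl fun a _ => single_dec L a (v a)

theorem sI (j : Fin 2) : (Pi.single j Complex.I : C2) = Complex.I • (Pi.single j 1 : C2) := by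
  rw [← Pi.single_smul, smul_eq_mul, mul_one]

variable {F : C2 → C2} {G H : C2 → ℂ} {z : C2}

theorem comp (hG : DifferentiableAt ℝ G (F z)) (hF : DifferentiableAt ℂ F z) (j : Fin 2) :
    dz j (fun w => G (F w)) z = ∑ a, dz a G (F z) * JJ F z a j ∧
      dzb j (fun w => G (F w)) z = ∑ a, dzb a G (F z) * conj (JJ F z a j) := by
  have h := (hG.hasFDerivAt.comp z (hF.hasFDerivAt.restrictScalars ℝ)).fderiv
  have h1 : ∀ v, fderiv ℝ (fun w => G (F w)) z v = ∑ a, (dz a G (F z) * fderiv ℂ F z v a +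
      dzb a G (F z) * conj (fderiv ℂ F z v a)) := fun v => by
    rw [show (fun w => G (F w)) = G ∘ F from rfl, h]
    exact dec (fderiv ℝ G (F z)) (fderiv ℂ F z v)
  rw [dz, dzb, h1, h1, sI, map_smul]
  simp only [Fin.sum_univ_two, JJ, Matrix.of_apply, Pi.smul_apply, smul_eq_mul, map_mul,
    Complex.conj_I]
  constructor
  · linear_combination (-(dz 0 G (F z) * fderiv ℂ F z (Pi.single j 1) 0 +
      dz 1 G (F z) * fderiv ℂ F z (Pi.single j 1) 1) +
      (dzb 0 G (F z) * conj (fderiv ℂ F z (Pi.single j 1) 0) +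
      dzb 1 G (F z) * conj (fderiv ℂ F z (Pi.single j 1) 1))) / 2 * Complex.I_mul_I
  · linear_combination ((dz 0 G (F z) * fderiv ℂ F z (Pi.single j 1) 0 +
      dz 1 G (F z) * fderiv ℂ F z (Pi.single j 1) 1) -
      (dzb 0 G (F z) * conj (fderiv ℂ F z (Pi.single j 1) 0) +
      dzb 1 G (F z) * conj (fderiv ℂ F z (Pi.single j 1) 1))) / 2 * Complex.I_mul_I

theorem dz_congr (h : G =ᶠ[𝓝 z] H) (j : Fin 2) : dz j G z = dz j H z := by
  rw [dz, dz, h.fderiv_eq]

theorem dzb_congr (h : G =ᶠ[𝓝 z] H) (j : Fin 2) : dzb j G =ᶠ[𝓝 z] dzb j H :=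
  h.eventually_nhds.mono fun w hw => by
    rw [dzb, dzb, EventuallyEq.fderiv_eq (f₁ := G) (f := H) hw]

theorem dz_add (hG : DifferentiableAt ℝ G z) (hH : DifferentiableAt ℝ H z) (j : Fin 2) :
    dz j (fun w => G w + H w) z = dz j G z + dz j H z := by
  rw [dz, dz, dz, fderiv_fun_add hG hH]
  simp only [add_apply]
  ring

theorem dzb_add (hG : DifferentiableAt ℝ G z) (hH : DifferentiableAt ℝ H z) (j : Fin 2) :
    dzb j (fun w => G w + H w) z = dzb j G z + dzb j H z := by
  rw [dzb, dzb, dzb, fderiv_fun_add hG hH]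
  simp only [add_apply]
  ring

theorem dz_mul (hG : DifferentiableAt ℝ G z) (hH : DifferentiableAt ℝ H z) (j : Fin 2) :
    dz j (fun w => G w * H w) z = dz j G z * H z + G z * dz j H z := by
  rw [dz, dz, dz, fderiv_fun_mul hG hH]
  simp only [add_apply, smul_apply, smul_eq_mul]
  ring

theorem hol (hG : DifferentiableAt ℂ G z) (j : Fin 2) :
    dz j G z = fderiv ℂ G z (Pi.single j 1) ∧ dzb j G z = 0 := by
  rw [dz, dzb, (hG.hasFDerivAt.restrictScalars ℝ).fderiv, sI]
  simp only [ContinuousLinearMap.coe_restrictScalars', map_smul, smul_eq_mul]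
  constructor
  · linear_combination -fderiv ℂ G z (Pi.single j 1) / 2 * Complex.I_mul_I
  · linear_combination fderiv ℂ G z (Pi.single j 1) / 2 * Complex.I_mul_I

theorem d_conj (hG : DifferentiableAt ℝ G z) : DifferentiableAt ℝ (fun w => conj (G w)) z :=
  Complex.conjCLE.differentiableAt.comp z hG

theorem cnj (hG : DifferentiableAt ℝ G z) (j : Fin 2) :
    dz j (fun w => conj (G w)) z = conj (dzb j G z) ∧
      dzb j (fun w => conj (G w)) z = conj (dz j G z) := by
  have h := (Complex.conjCLE.hasFDerivAt.comp z hG.hasFDerivAt).fderiv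
  have h1 : ∀ v, fderiv ℝ (fun w => conj (G w)) z v = conj (fderiv ℝ G z v) := fun v => by
    rw [show (fun w => conj (G w)) = Complex.conjCLE ∘ G from rfl, h]
    rfl
  rw [dz, dz, dzb, dzb, h1, h1]
  simp only [map_div₀, map_add, map_sub, map_mul, Complex.conj_I, map_ofNat]
  constructor <;> ring

theorem dz_anti (hG : DifferentiableAt ℂ G z) (j : Fin 2) :
    dz j (fun w => conj (G w)) z = 0 := by
  rw [(cnj (hG.restrictScalars ℝ) j).1, (hol hG j).2, map_zero]

theorem sm_d (hG : ContDiffAt ℝ ∞ G z) (j : Fin 2) :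
    ContDiffAt ℝ ∞ (dz j G) z ∧ ContDiffAt ℝ ∞ (dzb j G) z := by
  have h : ∀ v, ContDiffAt ℝ ∞ (fun w => fderiv ℝ G w v) z := fun v =>
    (hG.fderiv_right (m := ∞) le_rfl).clm_apply contDiffAt_const
  exact ⟨((h _).sub (contDiffAt_const.mul (h _))).div_const _,
    ((h _).add (contDiffAt_const.mul (h _))).div_const _⟩

theorem ev_d (hG : ContDiffAt ℝ ∞ G z) : ∀ᶠ w in 𝓝 z, DifferentiableAt ℝ G w :=
  ((hG.of_le (m := 1) (by simp)).eventually (by simp)).mono fun _ hw =>
    hw.differentiableAt one_ne_zero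

theorem sm_c {f : C2 → ℝ} (hf : ContDiffAt ℝ ∞ f z) : ContDiffAt ℝ ∞ (fun w => (f w : ℂ)) z :=
  Complex.ofRealCLM.contDiff.contDiffAt.comp z hf

theorem an_J (hF : AnalyticAt ℂ F z) (a j : Fin 2) : AnalyticAt ℂ (fun w => JJ F w a j) z :=
  (ContinuousLinearMap.proj (R := ℂ) (φ := fun _ : Fin 2 => ℂ) a).analyticAt _ |>.comp
    (((ContinuousLinearMap.apply ℂ C2 (Pi.single j 1 : C2)).analyticAt _).comp hF.fderiv)

theorem pb_apply (g : Fld) (w : C2) (j k : Fin 2) : pbF F g w j k =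
    (JJ F w 0 j * g (F w) 0 0 + JJ F w 1 j * g (F w) 1 0) * conj (JJ F w 0 k) +
      (JJ F w 0 j * g (F w) 0 1 + JJ F w 1 j * g (F w) 1 1) * conj (JJ F w 1 k) := by
  simp [pbF, Matrix.mul_apply, Fin.sum_univ_two]

theorem hess_comp (hF : AnalyticAt ℂ F z) {f : C2 → ℝ} (hf : ContDiffAt ℝ ∞ f (F z)) :
    hess (fun w => f (F w)) z = pbF F (hess f) z := by
  ext j k
  have hG := sm_c hf
  have hD := hF.differentiableAt
  have h1 : (dzb k fun w => (f (F w) : ℂ)) =ᶠ[𝓝 z] fun w =>
      dzb 0 (fun w => (f w : ℂ)) (F w) * conj (JJ F w 0 k) +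
        dzb 1 (fun w => (f w : ℂ)) (F w) * conj (JJ F w 1 k) := by
    filter_upwards [hF.continuousAt.eventually (ev_d hG), hF.eventually_analyticAt] with w h1 h2
    rw [(comp h1 h2.differentiableAt k).2, Fin.sum_univ_two]
  have h2 : ∀ b, DifferentiableAt ℝ (dzb b fun w => (f w : ℂ)) (F z) := fun b =>
    (sm_d hG b).2.differentiableAt (by simp)
  have h3 : ∀ b, DifferentiableAt ℝ (fun w => dzb b (fun w => (f w : ℂ)) (F w)) z := fun b =>
    (h2 b).comp z (hD.restrictScalars ℝ)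
  have h4 : ∀ b, DifferentiableAt ℝ (fun w => conj (JJ F w b k)) z := fun b =>
    d_conj ((an_J hF b k).differentiableAt.restrictScalars ℝ)
  rw [pb_apply, hess, Matrix.of_apply, dz_congr h1,
    dz_add ((h3 0).fun_mul (h4 0)) ((h3 1).fun_mul (h4 1)),
    dz_mul (h3 0) (h4 0), dz_mul (h3 1) (h4 1), dz_anti (an_J hF 0 k).differentiableAt,
    dz_anti (an_J hF 1 k).differentiableAt, (comp (h2 0) hD j).1, (comp (h2 1) hD j).1]
  simp only [hess, Matrix.of_apply, Fin.sum_univ_two]
  ring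

theorem J_symm (hF : AnalyticAt ℂ F z) (a j l : Fin 2) :
    dz l (fun w => JJ F w a j) z = dz j (fun w => JJ F w a l) z := by
  have h : ∀ j l : Fin 2, dz l (fun w => JJ F w a j) z =
      fderiv ℂ (fderiv ℂ F) z (Pi.single l 1) (Pi.single j 1) a := fun j l => by
    rw [(hol (an_J hF a j).differentiableAt l).1]
    have h1 := ((ContinuousLinearMap.proj (R := ℂ) (φ := fun _ : Fin 2 => ℂ) a).hasFDerivAt.comp z
      ((ContinuousLinearMap.apply ℂ C2 (Pi.single j 1 : C2)).hasFDerivAt.comp z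
        hF.fderiv.differentiableAt.hasFDerivAt)).fderiv
    exact congrArg (fun L : C2 →L[ℂ] ℂ => L (Pi.single l 1)) h1
  rw [h, h, (hF.contDiffAt (n := ⊤)).isSymmSndFDerivAt_of_omega.eq]

theorem closed (hF : AnalyticAt ℂ F z) {g : Fld}
    (hg : ∀ j k, ContDiffAt ℝ ∞ (fun w => g w j k) (F z))
    (hc : ∀ j k l, dz l (fun w => g w j k) (F z) = dz j (fun w => g w l k) (F z)) (j k l : Fin 2) :
    dz l (fun w => pbF F g w j k) z = dz j (fun w => pbF F g w l k) z := by
  have hD := hF.differentiableAt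
  have h1 : ∀ a j, DifferentiableAt ℝ (fun w => JJ F w a j) z := fun a j =>
    (an_J hF a j).differentiableAt.restrictScalars ℝ
  have h2 : ∀ a b, DifferentiableAt ℝ (fun w => g w a b) (F z) := fun a b =>
    (hg a b).differentiableAt (by simp)
  have h3 : ∀ a b, DifferentiableAt ℝ (fun w => g (F w) a b) z := fun a b =>
    (h2 a b).comp z (hD.restrictScalars ℝ)
  have h4 : ∀ j b, DifferentiableAt ℝ
      (fun w => JJ F w 0 j * g (F w) 0 b + JJ F w 1 j * g (F w) 1 b) z := fun j b =>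
    ((h1 0 j).mul (h3 0 b)).add ((h1 1 j).mul (h3 1 b))
  have h5 : ∀ j l b, dz l (fun w => (JJ F w 0 j * g (F w) 0 b + JJ F w 1 j * g (F w) 1 b) *
      conj (JJ F w b k)) z = (∑ a, (dz l (fun w => JJ F w a j) z * g (F z) a b +
        JJ F z a j * ∑ c, dz c (fun w => g w a b) (F z) * JJ F z c l)) * conj (JJ F z b k) :=
    fun j l b => by
      rw [dz_mul (h4 j b) (d_conj (h1 b k)), dz_anti (an_J hF b k).differentiableAt,
        dz_add ((h1 0 j).fun_mul (h3 0 b)) ((h1 1 j).fun_mul (h3 1 b)), dz_mul (h1 0 j) (h3 0 b),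
        dz_mul (h1 1 j) (h3 1 b), (comp (h2 0 b) hD l).1, (comp (h2 1 b) hD l).1]
      simp only [Fin.sum_univ_two]
      ring
  simp only [pb_apply]
  rw [dz_add ((h4 j 0).fun_mul (d_conj (h1 0 k))) ((h4 j 1).fun_mul (d_conj (h1 1 k))),
    dz_add ((h4 l 0).fun_mul (d_conj (h1 0 k))) ((h4 l 1).fun_mul (d_conj (h1 1 k))),
    h5, h5, h5, h5]
  simp only [Fin.sum_univ_two, J_symm hF _ j l, hc 0 _ 1]
  ring

/-- a pluriharmonic term does not change the complex Hessian -/
theorem hess_pluri {u v : C2 → ℝ} (hv : ContDiffAt ℝ ∞ v z) (hH : AnalyticAt ℂ H z)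
    (h : ∀ᶠ w in 𝓝 z, (u w : ℂ) = H w + conj (H w) + v w) : hess u z = hess v z := by
  ext j k
  have hV := sm_c hv
  have hA : AnalyticAt ℂ (fun w => fderiv ℂ H w (Pi.single k 1)) z :=
    ((ContinuousLinearMap.apply ℂ ℂ (Pi.single k 1 : C2)).analyticAt _).comp hH.fderiv
  have h1 : (dzb k fun w => (u w : ℂ)) =ᶠ[𝓝 z] fun w =>
      conj (fderiv ℂ H w (Pi.single k 1)) + dzb k (fun w => (v w : ℂ)) w := by
    filter_upwards [dzb_congr h k, ev_d hV, hH.eventually_analyticAt] with w h1 h2 h3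
    have h4 := h3.differentiableAt.restrictScalars ℝ
    rw [h1, dzb_add (h4.fun_add (d_conj h4)) h2, dzb_add h4 (d_conj h4), (cnj h4 k).2,
      (hol h3.differentiableAt k).1, (hol h3.differentiableAt k).2, zero_add]
  rw [hess, hess, Matrix.of_apply, Matrix.of_apply, dz_congr h1,
    dz_add (d_conj (hA.differentiableAt.restrictScalars ℝ))
      ((sm_d hV k).2.differentiableAt (by simp)), dz_anti hA.differentiableAt, zero_add]

theorem sm_det {g : Fld} (hg : ∀ j k, ContDiffAt ℝ ∞ (fun w => g w j k) z) :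
    ContDiffAt ℝ ∞ (fun w => (g w).det) z := by
  simp only [Matrix.det_fin_two]
  exact ((hg 0 0).mul (hg 1 1)).sub ((hg 0 1).mul (hg 1 0))

theorem sm_log {g : Fld} (hg : ∀ j k, ContDiffAt ℝ ∞ (fun w => g w j k) z) (hp : (g z).PosDef) :
    ContDiffAt ℝ ∞ (fun w => Real.log (g w).det.re) z :=
  (Complex.reCLM.contDiff.contDiffAt.comp z (sm_det hg)).log (Complex.pos_iff.1 hp.det_pos).1.ne'

theorem sm_scal {g : Fld} (hg : ∀ j k, ContDiffAt ℝ ∞ (fun w => g w j k) z) (hp : (g z).PosDef) :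
    ContDiffAt ℝ ∞ (scalG g) z := by
  have h1 : ∀ j k, ContDiffAt ℝ ∞ (fun w => hess (fun w => Real.log (g w).det.re) w j k) z :=
    fun j k => (sm_d (sm_d (sm_c (sm_log hg hp)) k).2 j).1
  have h2 : ContDiffAt ℝ ∞ (fun w => ((g w).det)⁻¹) z := (sm_det hg).inv hp.det_pos.ne'
  have h3 := h2.mul ((((hg 1 1).mul (h1 0 0)).sub ((hg 0 1).mul (h1 1 0))).add
    (((hg 0 0).mul (h1 1 1)).sub ((hg 1 0).mul (h1 0 1))))
  refine (Complex.reCLM.contDiff.contDiffAt.comp z h3).neg.congr_of_eventuallyEq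
    (Eventually.of_forall fun w => ?_)
  simp only [scalG, Function.comp, Complex.reCLM_apply]
  congr 2
  rw [Matrix.inv_def, Ring.inverse_eq_inv, Matrix.adjugate_fin_two, Matrix.trace_fin_two]
  simp [Matrix.mul_apply, Fin.sum_univ_two]
  ring

theorem scal_pb (hF : AnalyticAt ℂ F z) {g : Fld}
    (hg : ∀ j k, ContDiffAt ℝ ∞ (fun w => g w j k) (F z)) (hJ : (JJ F z).det ≠ 0)
    (hp : (g (F z)).PosDef) : scalG (pbF F g) z = scalG g (F z) := by
  have hD : AnalyticAt ℂ (fun w => (JJ F w).det) z := by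
    simp only [Matrix.det_fin_two]
    exact ((an_J hF 0 0).mul (an_J hF 1 1)).sub ((an_J hF 0 1).mul (an_J hF 1 0))
  have hsl : (JJ F z).det / (JJ F z).det ∈ Complex.slitPlane := by
    rw [div_self hJ]; exact Complex.one_mem_slitPlane
  have hL := sm_log hg hp
  have hR : ContDiffAt ℝ ∞ F z := (hF.contDiffAt (n := ∞)).restrict_scalars ℝ
  have h1 : hess (fun w => Real.log (pbF F g w).det.re) z =
      hess (fun w => Real.log (g (F w)).det.re) z := by
    refine hess_pluri (H := fun w => Complex.log ((JJ F w).det / (JJ F z).det) +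
      Real.log ‖(JJ F z).det‖) (hL.comp z hR)
      (((hD.div analyticAt_const hJ).clog hsl).add analyticAt_const) ?_
    have hc : ContinuousAt (fun w => (g (F w)).det.re) z :=
      Complex.continuous_re.continuousAt.comp
        ((sm_det hg).continuousAt.comp hF.continuousAt)
    filter_upwards [hD.continuousAt.eventually_ne hJ,
      hc.eventually_ne (Complex.pos_iff.1 hp.det_pos).1.ne'] with w h1 h2
    have h3 : (pbF F g w).det = (‖(JJ F w).det‖ ^ 2 : ℝ) * (g (F w)).det := by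
      have : ((JJ F w).map star).det = conj (JJ F w).det :=
        ((starRingEnd ℂ).map_det (JJ F w)).symm
      rw [pbF, Matrix.det_mul, Matrix.det_mul, Matrix.det_transpose, this, Complex.ofReal_pow,
        ← Complex.mul_conj']
      ring
    have h4 := norm_ne_zero_iff.2 h1
    rw [h3, Complex.re_ofReal_mul, Real.log_mul (pow_ne_zero _ h4) h2, Complex.add_conj,
      Complex.add_re, Complex.log_re, Complex.ofReal_re, norm_div,
      Real.log_div h4 (norm_ne_zero_iff.2 hJ), Real.log_pow]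
    push_cast
    ring
  have hT : IsUnit (JJ F z)ᵀ.det := by rw [Matrix.det_transpose]; exact hJ.isUnit
  have hS : IsUnit ((JJ F z).map star).det := by
    rw [show ((JJ F z).map star).det = conj (JJ F z).det from
      ((starRingEnd ℂ).map_det (JJ F z)).symm]
    exact ((map_ne_zero _).2 hJ).isUnit
  rw [scalG, scalG, h1, hess_comp hF hL, pbF, pbF, Matrix.mul_inv_rev, Matrix.mul_inv_rev]
  simp only [Matrix.mul_assoc]
  rw [Matrix.nonsing_inv_mul_cancel_left _ _ hT, Matrix.trace_mul_comm]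
  simp only [Matrix.mul_assoc]
  rw [Matrix.mul_nonsing_inv _ hS, Matrix.mul_one]

end Tens

open Tens in
theorem tens_ok : StTens := by
  intro F W hW hF
  have hA := CLS.S0.analyticOnNhd_of_diffOn hW hF
  refine ⟨fun a j z hz => (((an_J (hA z hz) a j).contDiffAt (n := ∞)).restrict_scalars
    ℝ).contDiffWithinAt, fun f z hz hf => hess_comp (hA z hz) hf, fun g z hz hg =>
    ⟨closed (hA z hz) hg, fun hJ hp => ⟨?_, scal_pb (hA z hz) hg hJ hp, sm_scal hg hp⟩⟩⟩
  exact hp.mul_mul_conjTranspose_same (B := (JJ F z)ᵀ) (Matrix.vecMul_injective_iff_isUnit.2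
    ((Matrix.isUnit_iff_isUnit_det _).2 (by rw [Matrix.det_transpose]; exact hJ.isUnit)))

end Pool.Agent.P.MP_2cea5e_gt.Abs
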